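import Pool.Agent.Helper9.DY.Pencil

/-!
# Chambers around the vertex of `t` and `h` for the labels `(m, 2, 3)` (MP_d13a5e_al)

`-B t a = -B t h = c`, `B a h = 1/2`, `s = 2 c`, `u_k = s_k t + s_(k+1) h`, `n = s t + a + s_3 h`.
-/

set_option autoImplicit false

namespace DY

open Set

variable {E : Type*} [AddCommGroup E] [Module ℝ E]
variable {Ψ : Set E} {B : E →ₗ[ℝ] E →ₗ[ℝ] ℝ}

/-- reflection of a simple system, with explicit labels -/
theorem Tri.flip89 {a b c : E} (h : Tri Ψ B a b c) {x y : ℝ} {b' c' : E} (hb : 2 * B a b = -x)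
    (hc : 2 * B a c = -y) (eb : b + x • a = b') (ec : c + y • a = c') : Tri Ψ B (-a) b' c' := by
  have h1 := h.flipW
  have e1 : rf B a b = b' := by
    unfold rf
    rw [hb, ← eb]
    module
  have e2 : rf B a c = c' := by
    unfold rf
    rw [hc, ← ec]
    module
  rwa [e1, e2] at h1

/-- cyclic rotation -/
theorem Tri.rot89 {a b c : E} (h : Tri Ψ B a b c) : Tri Ψ B b c a := h.swapW'.swapW

/-- the data -/
structure MT89 (Ψ : Set E) (B : E →ₗ[ℝ] E →ₗ[ℝ] ℝ) (t a h : E) (s : ℝ) : Prop where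
  tri : Tri Ψ B (-h) (t + s • h) a
  tt : B t t = 1
  aa : B a a = 1
  hh : B h h = 1
  ta : 2 * B t a = -s
  th : 2 * B t h = -s
  ah : 2 * B a h = 1

namespace MT89

variable {t a h : E} {s : ℝ}

theorem val (M : MT89 Ψ B t a h s) (g u v g' u' v' : ℝ) :
    2 * B (g • t + u • a + v • h) (g' • t + u' • a + v' • h) =
      2 * (g * g' + u * u' + v * v') - s * (g * u' + u * g') - s * (g * v' + v * g') +
        (u * v' + v * u') := by
  have h1 := M.tri.symm a t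
  have h2 := M.tri.symm h t
  have h3 := M.tri.symm h a
  simp only [map_add, map_smul, LinearMap.add_apply, LinearMap.smul_apply, smul_eq_mul, h1, h2, h3,
    M.tt, M.aa, M.hh]
  linear_combination (g * u' + u * g') * M.ta + (g * v' + v * g') * M.th + (u * v' + v * u') * M.ah

/-- `D_2` -/
theorem d2 (M : MT89 Ψ B t a h s) :
    Tri Ψ B (-(t + s • h)) (s • t + (s ^ 2 - 1) • h) a := by
  have h1 := M.tri.swapW
  refine h1.flip89 (x := s) (y := 0) ?_ ?_ (by module) (by module)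
  · have := M.val 1 0 s 0 0 (-1)
    have e1 : (1 : ℝ) • t + (0 : ℝ) • a + s • h = t + s • h := by module
    have e2 : (0 : ℝ) • t + (0 : ℝ) • a + (-1 : ℝ) • h = -h := by module
    rw [e1, e2] at this
    rw [this]
    ring
  · have := M.val 1 0 s 0 1 0
    have e1 : (1 : ℝ) • t + (0 : ℝ) • a + s • h = t + s • h := by module
    have e2 : (0 : ℝ) • t + (1 : ℝ) • a + (0 : ℝ) • h = a := by module
    rw [e1, e2] at this
    rw [this]
    ring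

/-- `D_3` -/
theorem d3 (M : MT89 Ψ B t a h s) :
    Tri Ψ B (-(s • t + (s ^ 2 - 1) • h)) ((s ^ 2 - 1) • t + (s ^ 3 - 2 * s) • h)
      (s • t + a + (s ^ 2 - 1) • h) := by
  have h1 := M.d2.swapW
  refine h1.flip89 (x := s) (y := 1) ?_ ?_ (by module) (by module)
  · have := M.val s 0 (s ^ 2 - 1) (-1) 0 (-s)
    have e1 : s • t + (0 : ℝ) • a + (s ^ 2 - 1) • h = s • t + (s ^ 2 - 1) • h := by module
    have e2 : (-1 : ℝ) • t + (0 : ℝ) • a + (-s) • h = -(t + s • h) := by module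
    rw [e1, e2] at this
    rw [this]
    ring
  · have := M.val s 0 (s ^ 2 - 1) 0 1 0
    have e1 : s • t + (0 : ℝ) • a + (s ^ 2 - 1) • h = s • t + (s ^ 2 - 1) • h := by module
    have e2 : (0 : ℝ) • t + (1 : ℝ) • a + (0 : ℝ) • h = a := by module
    rw [e1, e2] at this
    rw [this]
    ring

/-- `D_4` -/
theorem d4 (M : MT89 Ψ B t a h s) :
    Tri Ψ B (-((s ^ 2 - 1) • t + (s ^ 3 - 2 * s) • h))
      ((s ^ 3 - 2 * s) • t + (s ^ 4 - 3 * s ^ 2 + 1) • h) (s • t + a + (s ^ 2 - 1) • h) := by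
  have h1 := M.d3.swapW
  refine h1.flip89 (x := s) (y := 0) ?_ ?_ (by module) (by module)
  · have := M.val (s ^ 2 - 1) 0 (s ^ 3 - 2 * s) (-s) 0 (-(s ^ 2 - 1))
    have e1 : (s ^ 2 - 1) • t + (0 : ℝ) • a + (s ^ 3 - 2 * s) • h =
      (s ^ 2 - 1) • t + (s ^ 3 - 2 * s) • h := by module
    have e2 : (-s) • t + (0 : ℝ) • a + (-(s ^ 2 - 1)) • h = -(s • t + (s ^ 2 - 1) • h) := by module
    rw [e1, e2] at this
    rw [this]
    ring
  · have := M.val (s ^ 2 - 1) 0 (s ^ 3 - 2 * s) s 1 (s ^ 2 - 1)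
    have e1 : (s ^ 2 - 1) • t + (0 : ℝ) • a + (s ^ 3 - 2 * s) • h =
      (s ^ 2 - 1) • t + (s ^ 3 - 2 * s) • h := by module
    have e2 : s • t + (1 : ℝ) • a + (s ^ 2 - 1) • h = s • t + a + (s ^ 2 - 1) • h := by module
    rw [e1, e2] at this
    rw [this]
    ring

/-- `D_4'`, behind `n` -/
theorem d4' (M : MT89 Ψ B t a h s) :
    Tri Ψ B (-(s • t + a + (s ^ 2 - 1) • h)) (-((s ^ 2 - 1) • t + (s ^ 3 - 2 * s) • h))
      ((s ^ 3 - s) • t + a + (s ^ 4 - 2 * s ^ 2) • h) := by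
  have h1 := M.d4.rot89.rot89
  refine h1.flip89 (x := 0) (y := 1) ?_ ?_ (by module) (by module)
  · have := M.val s 1 (s ^ 2 - 1) (-(s ^ 2 - 1)) 0 (-(s ^ 3 - 2 * s))
    have e1 : s • t + (1 : ℝ) • a + (s ^ 2 - 1) • h = s • t + a + (s ^ 2 - 1) • h := by module
    have e2 : (-(s ^ 2 - 1)) • t + (0 : ℝ) • a + (-(s ^ 3 - 2 * s)) • h =
      -((s ^ 2 - 1) • t + (s ^ 3 - 2 * s) • h) := by module
    rw [e1, e2] at this
    rw [this]
    ring
  · have := M.val s 1 (s ^ 2 - 1) (s ^ 3 - 2 * s) 0 (s ^ 4 - 3 * s ^ 2 + 1)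
    have e1 : s • t + (1 : ℝ) • a + (s ^ 2 - 1) • h = s • t + a + (s ^ 2 - 1) • h := by module
    have e2 : (s ^ 3 - 2 * s) • t + (0 : ℝ) • a + (s ^ 4 - 3 * s ^ 2 + 1) • h =
      (s ^ 3 - 2 * s) • t + (s ^ 4 - 3 * s ^ 2 + 1) • h := by module
    rw [e1, e2] at this
    rw [this]
    ring

end MT89

/-- coordinates of a root in a simple system: all `Z1` or all `-Z1` -/
theorem Tri.sgn89 {a b c : E} (h : Tri Ψ B a b c) {w : E} (hw : w ∈ Ψ) {α β γ : ℝ}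
    (e : w = α • a + β • b + γ • c) :
    (Z1 α ∧ Z1 β ∧ Z1 γ) ∨ (Z1 (-α) ∧ Z1 (-β) ∧ Z1 (-γ)) := by
  rcases h.pos w hw with ⟨α', β', γ', e', k1, k2, k3⟩ | ⟨α', β', γ', e', k1, k2, k3⟩
  · left
    obtain ⟨l1, l2, l3⟩ := h.coordW (e.symm.trans e')
    rw [l1, l2, l3]
    exact ⟨k1, k2, k3⟩
  · right
    obtain ⟨l1, l2, l3⟩ := h.coordW (α := -α) (β := -β) (γ := -γ) (by rw [← e', e]; module)
    rw [l1, l2, l3]
    exact ⟨k1, k2, k3⟩

namespace MT89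

variable {t a h : E} {s : ℝ}

/-- coordinates in `D_4` -/
theorem z4 (M : MT89 Ψ B t a h s) {g u v : ℝ} (hw : g • t + u • a + v • h ∈ Ψ) :
    (Z1 ((s ^ 4 - 3 * s ^ 2 + 1) * g - (s ^ 3 - 2 * s) * v + s * u) ∧
        Z1 ((s ^ 3 - 2 * s) * g - (s ^ 2 - 1) * v + u) ∧ Z1 u) ∨
      (Z1 (-((s ^ 4 - 3 * s ^ 2 + 1) * g - (s ^ 3 - 2 * s) * v + s * u)) ∧
        Z1 (-((s ^ 3 - 2 * s) * g - (s ^ 2 - 1) * v + u)) ∧ Z1 (-u)) :=
  M.d4.sgn89 hw (by module)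

/-- coordinates in `D_4'` -/
theorem z4' (M : MT89 Ψ B t a h s) {g u v : ℝ} (hw : g • t + u • a + v • h ∈ Ψ) :
    (Z1 ((s ^ 3 - 2 * s) * g - (s ^ 2 - 1) * v) ∧
        Z1 ((s ^ 4 - 3 * s ^ 2 + 1) * g - (s ^ 3 - 2 * s) * v + s * u) ∧
        Z1 ((s ^ 3 - 2 * s) * g - (s ^ 2 - 1) * v + u)) ∨
      (Z1 (-((s ^ 3 - 2 * s) * g - (s ^ 2 - 1) * v)) ∧
        Z1 (-((s ^ 4 - 3 * s ^ 2 + 1) * g - (s ^ 3 - 2 * s) * v + s * u)) ∧
        Z1 (-((s ^ 3 - 2 * s) * g - (s ^ 2 - 1) * v + u))) :=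
  M.d4'.sgn89 hw (by module)

end MT89

end DY
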