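import Pool.Agent.Helper89.DY.Excl
import Pool.Agent.Helper89.DY.Fan

/-!
# GAP4: the coordinates `(t; a, h)` and the equality cases (MP_d13a5e_al)
-/

set_option autoImplicit false

namespace DY

open Set

section Real

variable {b c d g u v g' u' v' fa fh K : ℝ}

theorem relB89 (hN : g ^ 2 + u ^ 2 + v ^ 2 - 2 * c * g * u - 2 * d * g * v + 2 * b * u * v = 1)
    (fx : g = -fa * u - fh * v) (fy : g' = -fa * u' - fh * v')
    (hK : g * g' + u * u' + v * v' - c * (g * u' + u * g') - d * (g * v' + v * g') +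
      b * (u * v' + v * u') = K) :
    (v * u' - u * v') * ((c * g - u - b * v) - fa * (c * u + d * v - g)) = v' - v * K := by
  subst fx fy
  linear_combination v' * hN - v * hK

end Real

variable {E : Type*} [AddCommGroup E] [Module ℝ E]
variable {Ψ : Set E} {B : E →ₗ[ℝ] E →ₗ[ℝ] ℝ} {ρ φ : E →ₗ[ℝ] ℝ} {t d1 d2 x x' : E}
variable {g x1 x2 g' x1' x2' q p r w : ℝ}

/-- data in the coordinates `(t; a, h)` -/
structure GD (Ψ : Set E) (B : E →ₗ[ℝ] E →ₗ[ℝ] ℝ) (ρ φ : E →ₗ[ℝ] ℝ) (t a h x x' : E)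
    (b c d g u v g' u' v' : ℝ) : Prop where
  ex : x = g • t + u • a + v • h
  ex' : x' = g' • t + u' • a + v' • h
  nrm : g ^ 2 + u ^ 2 + v ^ 2 - 2 * c * g * u - 2 * d * g * v + 2 * b * u * v = 1
  nrm' : g' ^ 2 + u' ^ 2 + v' ^ 2 - 2 * c * g' * u' - 2 * d * g' * v' + 2 * b * u' * v' = 1
  val : g * g' + u * u' + v * v' - c * (g * u' + u * g') - d * (g * v' + v * g') +
      b * (u * v' + v * u') = B x x'
  T : 0 ≤ c * u + d * v - g
  hK : B x x' ≤ 0
  st : 0 < v * u' - u * v'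
  fx : g = -φ a * u - φ h * v
  fy : g' = -φ a * u' - φ h * v'
  rx : ρ x = g + u * ρ a + v * ρ h
  rx' : ρ x' = g' + u' * ρ a + v' * ρ h
  th : B t h = -d
  foot : -d ≤ ρ h
  fa : 0 ≤ φ a
  fh : φ h < 0
  strh : Str d (φ h) (ρ h)
  hg : 0 ≤ g'

theorem gd89 (X : Xs Ψ B ρ φ t d1 d2 x x' g x1 x2 g' x1' x2') (O : OFA Ψ B φ d1 d2 q p r w) :
    GD Ψ B ρ φ t (q • d1 + p • d2) (r • d1 + w • d2) x x' (-B d1 d2) (q * -B t d1 + p * -B t d2)
      (r * -B t d1 + w * -B t d2) g (x1 * w - x2 * r) (q * x2 - p * x1) g' (x1' * w - x2' * r)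
      (q * x2' - p * x1') := by
  have L := X.L
  have h1 := L.tri.one t L.tri.ha
  have h2 := L.tri.one d1 L.tri.hb
  have h3 := L.tri.one d2 L.tri.hc
  have s1 := L.tri.symm d1 t
  have s2 := L.tri.symm d2 t
  have s3 := L.tri.symm d2 d1
  have hD := O.det
  have k1 : x1 = (x1 * w - x2 * r) * q + (q * x2 - p * x1) * r := by linear_combination (-x1) * hD
  have k2 : x2 = (x1 * w - x2 * r) * p + (q * x2 - p * x1) * w := by linear_combination (-x2) * hD
  have k1' : x1' = (x1' * w - x2' * r) * q + (q * x2' - p * x1') * r := by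
    linear_combination (-x1') * hD
  have k2' : x2' = (x1' * w - x2' * r) * p + (q * x2' - p * x1') * w := by
    linear_combination (-x2') * hD
  obtain ⟨u, hu⟩ : ∃ u, u = x1 * w - x2 * r := ⟨_, rfl⟩
  obtain ⟨v, hv⟩ : ∃ v, v = q * x2 - p * x1 := ⟨_, rfl⟩
  obtain ⟨u', hu'⟩ : ∃ u', u' = x1' * w - x2' * r := ⟨_, rfl⟩
  obtain ⟨v', hv'⟩ : ∃ v', v' = q * x2' - p * x1' := ⟨_, rfl⟩
  rw [← hu, ← hv] at k1 k2
  rw [← hu', ← hv'] at k1' k2'
  rw [← hu, ← hv, ← hu', ← hv']
  have na := O.ra.nrm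
  have nh := O.rh.nrm
  have adj := O.adj
  have ex : x = g • t + u • (q • d1 + p • d2) + v • (r • d1 + w • d2) := by
    rw [X.e, k1, k2]
    module
  have ex' : x' = g' • t + u' • (q • d1 + p • d2) + v' • (r • d1 + w • d2) := by
    rw [X.e', k1', k2']
    module
  have hne : r • d1 + w • d2 ≠ t := by
    intro h
    have := L.tri.indep (-1) r w (by nth_rewrite 1 [← h]; module)
    linarith [this.1]
  have hstr := L.str (r • d1 + w • d2) O.rh.mem ⟨0, r, w, by module, Or.inl rfl, O.rh.z1, O.rh.z2⟩ hne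
  have hth : B t (r • d1 + w • d2) = -(r * -B t d1 + w * -B t d2) := by
    rw [map_add, map_smul, map_smul, smul_eq_mul, smul_eq_mul]
    ring
  rw [hth, neg_neg] at hstr
  refine ⟨ex, ex', ?_, ?_, ?_, ?_, ?_, ?_, ?_, ?_, ?_, ?_, hth, hstr.foot, ?_, ?_, hstr, e0Z1 X.c'.zg⟩
  · have h4 := X.c.nrm
    rw [k1, k2] at h4
    linear_combination h4 - u ^ 2 * na - v ^ 2 * nh - 2 * u * v * adj
  · have h4 := X.c'.nrm
    rw [k1', k2'] at h4
    linear_combination h4 - u' ^ 2 * na - v' ^ 2 * nh - 2 * u' * v' * adj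
  · rw [ex, ex']
    simp only [map_add, map_smul, LinearMap.add_apply, LinearMap.smul_apply, smul_eq_mul, h1, h2, h3,
      s1, s2, s3]
    linear_combination (-(u * u')) * na - v * v' * nh - (u * v' + v * u') * adj
  · have := X.c.obt
    rw [k1, k2] at this
    linarith
  · rw [L.tri.symm]
    exact L.cxx.nonpos L.tri.sys L.xm L.xm'
  · have := X.st
    have e : v * u' - u * v' = x2 * x1' - x1 * x2' := by
      rw [hu, hv, hu', hv']
      linear_combination (x2 * x1' - x1 * x2') * hD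
    rw [e]
    linarith
  · have := X.c.fz
    rw [k1, k2] at this
    rw [map_add, map_add, map_smul, map_smul, map_smul, map_smul, smul_eq_mul, smul_eq_mul,
      smul_eq_mul, smul_eq_mul]
    linarith
  · have := X.c'.fz
    rw [k1', k2'] at this
    rw [map_add, map_add, map_smul, map_smul, map_smul, map_smul, smul_eq_mul, smul_eq_mul,
      smul_eq_mul, smul_eq_mul]
    linarith
  · rw [ex]
    simp only [map_add, map_smul, smul_eq_mul, L.rt]
    ring
  · rw [ex']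
    simp only [map_add, map_smul, smul_eq_mul, L.rt]
    ring
  · have := O.fa
    rw [map_add, map_smul, map_smul, smul_eq_mul, smul_eq_mul]
    exact this
  · have := O.fh
    rw [map_add, map_smul, map_smul, smul_eq_mul, smul_eq_mul]
    exact this

namespace GD

variable {a h : E} {b c d u v u' v' : ℝ}

/-- `A ≥ 0` -/
theorem hA (G : GD Ψ B ρ φ t a h x x' b c d g u v g' u' v') (hv : 0 < v) (hv' : 0 ≤ v') :
    0 ≤ c * g - u - b * v := by
  have h1 := relB89 G.nrm G.fx G.fy G.val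
  have h2 : 0 ≤ (v * u' - u * v') * ((c * g - u - b * v) - φ a * (c * u + d * v - g)) := by
    rw [h1]
    have := mul_nonneg hv.le (by linarith [G.hK] : 0 ≤ -B x x')
    linarith
  have h3 := nonneg_of_mul_nonneg_right h2 G.st
  have h4 := mul_nonneg G.fa G.T
  linarith

/-- the equality case -/
theorem eq (G : GD Ψ B ρ φ t a h x x' b 1 b g u v g' u' v') (hu : 0 < u) (hv : 0 < v)
    (hu' : 0 < u') (hv' : 0 ≤ v') (hx : 0 ≤ ρ x') (hs : ρ x + ρ x' ≤ 1) :
    g = u + b * v ∧ v ^ 2 * (1 - b ^ 2) = 1 ∧ x' = a ∧ φ a = 0 ∧ u ≤ 1 ∧ 0 ≤ ρ a := by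
  have hA := G.hA hv hv'
  have hT := G.T
  have e1 : g = u + b * v := by linarith
  have e2 : v ^ 2 * (1 - b ^ 2) = 1 := by
    have := G.nrm
    rw [e1] at this
    linear_combination this
  have e3 : v' = 0 := by
    have h1 := relB89 G.nrm G.fx G.fy G.val
    have h2 : (1 : ℝ) * g - u - b * v = 0 := by linarith
    have h3 : (1 : ℝ) * u + b * v - g = 0 := by linarith
    rw [h2, h3, mul_zero, sub_zero, mul_zero] at h1
    have := mul_nonneg hv.le (by linarith [G.hK] : 0 ≤ -B x x')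
    linarith
  have e4 : g' = 0 := by
    have h1 := G.fy
    rw [e3, mul_zero, sub_zero] at h1
    have := mul_nonneg G.fa hu'.le
    have := G.hg
    linarith
  have e5 : φ a = 0 := by
    have h1 := G.fy
    rw [e3, mul_zero, sub_zero, e4] at h1
    have h2 : φ a * u' = 0 := by linarith
    rcases mul_eq_zero.1 h2 with h | h
    · exact h
    · linarith
  have e6 : u' = 1 := by
    have h1 := G.nrm'
    rw [e3, e4] at h1
    have h2 : (u' - 1) * (u' + 1) = 0 := by linear_combination h1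
    rcases mul_eq_zero.1 h2 with h | h <;> linarith
  have e7 : x' = a := by
    rw [G.ex', e3, e4, e6]
    module
  have e8 : 0 ≤ ρ a := by rw [← e7]; exact hx
  refine ⟨e1, e2, e7, e5, ?_, e8⟩
  have h1 := G.rx
  have h2 := mul_nonneg hu.le e8
  have h3 := mul_le_mul_of_nonneg_left G.foot hv.le
  linarith

/-- `m_O = 4`, `u = 1` -/
theorem eq4 (G : GD Ψ B ρ φ t a h x x' b 1 b g 1 v g' u' v') (hS : Sys Ψ B) (ht : t ∈ Ψ)
    (hh : h ∈ Ψ) (hc : Canon Ψ x x') (hb : 0 < b) (hb2 : b ^ 2 = 1 / 2) (hv : 0 < v)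
    (e1 : g = 1 + b * v) (e2 : v ^ 2 * (1 - b ^ 2) = 1) (e7 : x' = a) : False := by
  have h1 : v = 2 * b := by
    rw [hb2] at e2
    have h2 : v ^ 2 = (2 * b) ^ 2 := by linarith
    exact (pow_left_inj₀ hv.le (by linarith) two_ne_zero).1 h2
  have h2 : g = 2 := by
    rw [e1, h1]
    linarith
  have h3 := hS.refl t ht h hh
  have h4 : rf B t h = b • x + (-b) • x' := by
    unfold rf
    rw [G.th]
    nth_rewrite 1 [G.ex]
    rw [e7, h1, h2]
    have e : b • ((2 : ℝ) • t + (1 : ℝ) • a + (2 * b) • h) + (-b) • a = (2 * b) • t + (2 * b ^ 2) • h := by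
      module
    rw [e, hb2]
    module
  rcases hc _ h3 _ _ h4 with (⟨h5, -⟩ | ⟨-, h5⟩ | ⟨-, h5⟩) | (⟨h5, -⟩ | ⟨h5, -⟩ | ⟨h5, -⟩) <;> linarith

/-- `m_O = 6`, `u = 1` -/
theorem eq6 (G : GD Ψ B ρ φ t a h x x' b 1 b g 1 v g' u' v') (hb : 0 < b) (hb2 : b ^ 2 = 3 / 4)
    (hv : 0 < v) (e1 : g = 1 + b * v) (e2 : v ^ 2 * (1 - b ^ 2) = 1) (e5 : φ a = 0) (e8 : 0 ≤ ρ a)
    (hx : ρ x ≤ 1) : False := by
  have h1 : v = 2 := by
    rw [hb2] at e2
    have h2 : v ^ 2 = 2 ^ 2 := by linarith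
    exact (pow_left_inj₀ hv.le (by norm_num) two_ne_zero).1 h2
  subst h1
  have hb1 : 1 / 2 < b := by nlinarith
  have hb3 : b < 1 := by nlinarith
  have h2 : φ h = -(1 / 2) - b := by
    have := G.fx
    rw [e5, e1] at this
    linarith
  have q2 : sq b 2 = 2 * b := sq_two
  have q3 : sq b 3 = 2 := by
    rw [sq_succ, q2, sq_one]
    linear_combination 4 * hb2
  have q4 : sq b 4 = 2 * b := by
    rw [sq_succ, q3, q2]
    ring
  have q5 : sq b 5 = 1 := by
    rw [sq_succ, q4, q3]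
    linear_combination 4 * hb2
  have h3 := G.strh.nk G.fh 4 (by
    intro i hi
    interval_cases i
    · rw [sq_one]; norm_num
    · show 0 < sq b 2
      rw [q2]; linarith
    · show 0 < sq b 3
      rw [q3]; norm_num
    · show 0 < sq b 4
      rw [q4]; linarith
    · show 0 < sq b 5
      rw [q5]; norm_num) (by
    intro i hi
    rw [h2]
    interval_cases i
    · show sq b 1 * _ + sq b 0 ≤ 0
      rw [sq_one, sq_zero]; linarith
    · show sq b 2 * _ + sq b 1 ≤ 0
      rw [q2, sq_one]; nlinarith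
    · show sq b 3 * _ + sq b 2 ≤ 0
      rw [q2, q3]; nlinarith
    · show sq b 4 * _ + sq b 3 ≤ 0
      rw [q3, q4]; nlinarith) (by
    show 0 < sq b 5 * _ + sq b 4
    rw [q4, q5, h2]
    linarith)
  have h4 : 1 < ρ h + 2 * b := by
    have h5 : 1 < sq b 5 * ρ h + sq b 4 := h3
    rw [q4, q5] at h5
    linarith
  have h5 := G.rx
  rw [e1] at h5
  linarith

end GD

end DY
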