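import Pool.Agent.Helper89.DY.Gap4A
import Pool.Agent.Helper89.DY.Gap4B

/-!
# GAP4 from the labels `(2, m, 3)` (MP_d13a5e_al)
-/

set_option autoImplicit false

namespace DY

open Set

variable {E : Type*} [AddCommGroup E] [Module ℝ E]
variable {Ψ : Set E} {B : E →ₗ[ℝ] E →ₗ[ℝ] ℝ} {ρ φ : E →ₗ[ℝ] ℝ} {t d1 d2 x x' : E}
variable {g x1 x2 g' x1' x2' q p r w : ℝ}

/-- roots of the vertex of `d1, d2` -/
def SO (Ψ : Set E) (d1 d2 : E) (X Y : ℝ) : Prop := X • d1 + Y • d2 ∈ Ψ ∨ Y • d1 + X • d2 ∈ Ψ

theorem SO.symm {X Y : ℝ} (h : SO Ψ d1 d2 X Y) : SO Ψ d1 d2 Y X := h.elim Or.inr Or.inl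

/-- reflection in the first simple root -/
theorem Tri.rfa89 {a b c : E} (h : Tri Ψ B a b c) {α β γ : ℝ} (hw : α • a + β • b + γ • c ∈ Ψ) :
    (2 * -B a b * β + 2 * -B a c * γ - α) • a + β • b + γ • c ∈ Ψ := by
  have h1 := h.refl a h.ha _ hw
  have h2 : rf B a (α • a + β • b + γ • c) =
      (2 * -B a b * β + 2 * -B a c * γ - α) • a + β • b + γ • c := by
    unfold rf
    simp only [map_add, map_smul, smul_eq_mul, h.one a h.ha]
    module
  rwa [h2] at h1

theorem SO.cl (hT : Tri Ψ B t d1 d2) {X Y : ℝ} (h : SO Ψ d1 d2 X Y) :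
    SO Ψ d1 d2 X (2 * -B d1 d2 * X - Y) := by
  rcases h with h | h
  · left
    have h1 := (hT.rot89.rot89 : Tri Ψ B d2 t d1).rfa89 (α := Y) (β := 0) (γ := X) (by
      have e : Y • d2 + (0 : ℝ) • t + X • d1 = X • d1 + Y • d2 := by module
      rw [e]
      exact h)
    have e : (2 * -B d2 t * 0 + 2 * -B d2 d1 * X - Y) • d2 + (0 : ℝ) • t + X • d1 =
        X • d1 + (2 * -B d1 d2 * X - Y) • d2 := by
      rw [hT.symm d2 d1]
      module
    rwa [e] at h1
  · right
    have h1 := (hT.rot89 : Tri Ψ B d1 d2 t).rfa89 (α := Y) (β := X) (γ := 0) (by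
      have e : Y • d1 + X • d2 + (0 : ℝ) • t = Y • d1 + X • d2 := by module
      rw [e]
      exact h)
    have e : (2 * -B d1 d2 * X + 2 * -B d1 t * 0 - Y) • d1 + X • d2 + (0 : ℝ) • t =
        (2 * -B d1 d2 * X - Y) • d1 + X • d2 := by
      module
    rwa [e] at h1

theorem SO.po (hT : Tri Ψ B t d1 d2) {X Y : ℝ} (h : SO Ψ d1 d2 X Y) (hX : 0 < X) : Z1 Y := by
  rcases h with h | h
  · rcases hT.sgn89 h (α := 0) (β := X) (γ := Y) (by module) with ⟨-, -, h1⟩ | ⟨-, h1, -⟩
    · exact h1
    · have := e0Z1 h1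
      linarith only [hX, this]
  · rcases hT.sgn89 h (α := 0) (β := Y) (γ := X) (by module) with ⟨-, h1, -⟩ | ⟨-, -, h1⟩
    · exact h1
    · have := e0Z1 h1
      linarith only [hX, this]

theorem CP.lab3_89 {u v : E} {e : ℝ} (hC : CP Ψ B u v e) (h : 0 < e) : e = 1 / 2 ∨ 1 / 2 ≤ e ^ 2 := by
  have q2 : sq e 2 = 2 * e := sq_two
  have q3 : sq e 3 = 4 * e ^ 2 - 1 := by
    rw [sq_succ, q2, sq_one]
    ring
  rcases hC.sq_next (n := 2) (by rw [q2]; linarith only [h]) with h1 | h1
  · left
    have h2 : sq e 3 = 0 := h1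
    rw [q3] at h2
    have h3 : e ^ 2 = (1 / 2) ^ 2 := by linarith only [h2]
    exact (pow_left_inj₀ h.le (by norm_num) two_ne_zero).1 h3
  · right
    have h2 : 1 ≤ sq e 3 := h1
    rw [q3] at h2
    linarith only [h2]

theorem GD.end4 {a h : E} {b u v u' v' : ℝ} (G : GD Ψ B ρ φ t a h x x' b 1 b g u v g' u' v')
    (L : Loc Ψ B ρ φ t d1 d2 x x') (hh : h ∈ Ψ) (hb : 0 < b) (hb2 : b ^ 2 = 1 / 2) (hu1 : 1 ≤ u)
    (hv : 0 < v) (hu' : 0 < u') (hv' : 0 ≤ v') : False := by
  obtain ⟨e1, e2, e7, -, hu2, -⟩ := G.eq (by linarith only [hu1]) hv hu' hv' L.rx' L.sum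
  have h1 : u = 1 := le_antisymm hu2 hu1
  subst h1
  exact G.eq4 L.tri.sys L.tri.ha hh L.cxx hb hb2 hv e1 e2 e7

theorem GD.end6 {a h : E} {b u v u' v' : ℝ} (G : GD Ψ B ρ φ t a h x x' b 1 b g u v g' u' v')
    (L : Loc Ψ B ρ φ t d1 d2 x x') (hb : 0 < b) (hb2 : b ^ 2 = 3 / 4) (hu1 : 1 ≤ u)
    (hv : 0 < v) (hu' : 0 < u') (hv' : 0 ≤ v') : False := by
  obtain ⟨e1, e2, -, e5, hu2, e8⟩ := G.eq (by linarith only [hu1]) hv hu' hv' L.rx' L.sum
  have h1 : u = 1 := le_antisymm hu2 hu1
  subst h1
  exact G.eq6 hb hb2 hv e1 e2 e5 e8 (by linarith only [L.sum, L.rx'])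

/-- **GAP4** from the labels `(2, m, 3)` -/
theorem gap4_of (hP : GAPStat Ψ B fun t d1 d2 al1 al2 be1 be2 => B t d1 = 0 ∧ B d1 d2 = -(1 / 2) ∧
    al1 = 1 ∧ al2 = 1 ∧ be1 = 0 ∧ be2 = 1 ∧ -B t d2 ≤ 1 ∧ 1 / 2 < (B t d2) ^ 2) : GAP4 Ψ B := by
  intro ρ φ t d1 d2 x x' g x1 x2 g' x1' x2' q p r w X O ⟨hb, hc⟩ hu hu' hv hv'
  have L := X.L
  obtain ⟨hw, hr⟩ := adj89 (b := -B d1 d2) (q := q) (p := p) (r := r) (w := w)
    (by linear_combination O.ra.nrm) O.det (by linear_combination O.adj)
  subst hw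
  have G := gd89 X O
  have hA := G.hA hv hv'
  have hT := G.T
  have hN := G.nrm
  have C1 : CP Ψ B t d1 (-B t d1) := L.tri.cp
  have C2 : CP Ψ B t d2 (-B t d2) := L.tri.cp'
  have C0 : CP Ψ B d1 d2 (-B d1 d2) := (L.tri.rot89 : Tri Ψ B d1 d2 t).cp
  have n1 := C1.b_nonneg
  have n2 := C2.b_nonneg
  have hb0 : 0 < -B d1 d2 := by linarith only [hb]
  have hq0 := e0Z1 O.ra.z1
  have hp0 := e0Z1 O.ra.z2
  have hr0 := e0Z1 O.rh.z1
  have nrm : w ^ 2 + p ^ 2 - 2 * (-B d1 d2) * w * p = 1 := by linear_combination O.ra.nrm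
  obtain ⟨hcd, hcu, h2, hbc, hg⟩ := ex89 hb0 hu hv
    (add_nonneg (mul_nonneg hq0 n1) (mul_nonneg hp0 n2)) hc hA hT hN
  have lb := C0.lab3_89 hb0
  obtain ⟨b, eb⟩ : ∃ b, b = -B d1 d2 := ⟨_, rfl⟩
  obtain ⟨b1, eb1⟩ : ∃ b1, b1 = -B t d1 := ⟨_, rfl⟩
  obtain ⟨b2, eb2⟩ : ∃ b2, b2 = -B t d2 := ⟨_, rfl⟩
  rw [← eb, ← eb1, ← eb2] at G
  rw [← eb, ← eb1, ← eb2] at hcd hcu h2
  rw [← eb, ← eb1, ← eb2] at hbc
  rw [← eb] at hb hr hb0 nrm lb
  rw [← eb1, ← eb2] at hc
  rw [← eb1] at C1 n1
  rw [← eb2] at C2 n2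
  have ebB : B d1 d2 = -b := by linarith only [eb]
  have ebB1 : B t d1 = -b1 := by linarith only [eb1]
  have ebB2 : B t d2 = -b2 := by linarith only [eb2]
  have hq : 1 ≤ w := by
    rcases O.ra.z1 with h | h
    · exfalso
      rw [h] at hr nrm
      have h3 : 0 < p := by
        rcases hp0.lt_or_eq with h4 | h4
        · exact h4
        · rw [← h4] at nrm
          norm_num at nrm
      linarith only [hr0, hr, h3]
    · exact h
  rcases O.ra.z2 with hp | hp
  · -- `a = d1`
    subst hp
    have hw1 : w = 1 := by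
      have h3 : (w - 1) * (w + 1) = 0 := by linear_combination nrm
      rcases mul_eq_zero.1 h3 with h | h <;> linarith
    subst hw1
    have hr' : r = 2 * b := by linarith only [hr]
    subst hr'
    rcases lb with h | h
    · subst h
      have h3 : b1 * b2 < 1 / 4 := by linarith only [h2]
      have h4 : 1 / 2 < b1 := by linarith only [hbc]
      have h5 : b2 = 0 := by
        rcases C2.b_cases with h6 | h6
        · exact h6
        · exfalso
          have := mul_le_mul h4.le h6 (by norm_num) (by linarith only [h4] : 0 ≤ b1)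
          linarith only [h3, this]
      subst h5
      have O' : OFA Ψ B φ d1 d2 1 0 1 1 := by
        have e : (2 * (1 / 2) : ℝ) = 1 := by norm_num
        rw [e] at O
        exact O
      refine m23_89 X O' (by linarith only [ebB2]) (by linarith only [ebB]) (by linarith only [ebB1, hc]) ?_ (by linarith only [hu]) (by linarith only [hu'])
      rw [ebB1]
      by_contra h6
      rw [not_lt] at h6
      have h7 : 0 ≤ (1 / 2 - b1 ^ 2) * (1 * x2 - 0 * x1) := mul_nonneg (by linarith only [h6]) hv.le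
      have h8 : 0 ≤ (1 / 2 - b1 ^ 2) * (x1 * 1 - x2 * (2 * (1 / 2))) := mul_nonneg (by linarith only [h6]) hu.le
      have h9 : 0 < (1 / 2) * (x1 * 1 - x2 * (2 * (1 / 2))) := mul_pos (by norm_num) hu
      linarith only [hcu, h7, h8, h9]
    · exfalso
      have h3 : b < b1 := by linarith only [hbc]
      have h4 : b ^ 2 < b1 ^ 2 := pow_lt_pow_left₀ h3 hb0.le two_ne_zero
      have h5 : 0 ≤ (b ^ 2 - 1 / 2) * b1 ^ 2 := mul_nonneg (by linarith only [h]) (sq_nonneg b1)
      have h6 : 0 ≤ b * b1 * b2 := mul_nonneg (mul_nonneg hb0.le n1) n2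
      have h7 : 2 * b * (1 * b1 + 0 * b2) * (2 * b * b1 + 1 * b2) = 4 * (b ^ 2 * b1 ^ 2) + 2 * (b * b1 * b2) := by
        ring
      have h8 : (1 * b1 + 0 * b2) ^ 2 = b1 ^ 2 := by ring
      rw [h7, h8] at h2
      linarith only [h2, h4, h5, h6]
  · -- `a ≠ d1`
    have sO : SO Ψ d1 d2 w p := Or.inl O.ra.mem
    have sO' : SO Ψ d1 d2 w r := Or.inr O.rh.mem
    have cl : ∀ X Y, SO Ψ d1 d2 X Y → SO Ψ d1 d2 X (2 * b * X - Y) := by
      intro X Y h
      rw [eb]
      exact h.cl L.tri
    have po : ∀ X Y, SO Ψ d1 d2 X Y → 0 < X → Z1 Y := fun X Y h hX => h.po L.tri hX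
    rcases C1.b_cases with h3 | h3
    · -- `b1 = 0`
      subst h3
      have h4 : 0 < b2 := by
        rcases n2.lt_or_eq with h | h
        · exact h
        · exfalso
          rw [← h] at hbc
          linarith only [hb, hbc]
      have hc' : p * b2 ≤ 1 := by linarith only [hc]
      rcases seq89 (b := b) (e := b2) (X := p) (Y := w) (fun _ _ h => h.symm) cl po sO.symm
        (by linarith only [nrm]) lb hb0 (C2.lab3_89 h4) h4 (by linarith only [hp]) (by linarith only [hq]) hc' (by linarith only [hbc])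
        (by linarith only [hcd]) with h | ⟨k1, k2, k3, k4⟩ | ⟨k1, k2, k3, k4⟩
      · -- `(2, m, 3)`
        have hp1 : p = 1 := by
          rw [h] at nrm
          have h5 : (p - 1) * (p + 1) = 0 := by linear_combination nrm
          rcases mul_eq_zero.1 h5 with h6 | h6 <;> linarith
        subst hp1
        have hw2 : w = 2 * b := by linarith only [h]
        subst hw2
        rcases lb with h5 | h5
        · subst h5
          have hr' : r = 0 := by linarith only [hr]
          subst hr'
          have O' : OFA Ψ B φ d1 d2 1 1 0 1 := by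
            have e : (2 * (1 / 2) : ℝ) = 1 := by norm_num
            rw [e] at O
            exact O
          refine hP ρ φ t d1 d2 x x' g x1 x2 g' x1' x2' 1 1 0 1 X O' ⟨by linarith only [ebB1], by linarith only [ebB], rfl, rfl,
            rfl, rfl, by linarith only [ebB2, hc'], ?_⟩ (by linarith only [hu]) (by linarith only [hu']) (by linarith only [hv]) (by linarith only [hv'])
          rw [ebB2]
          by_contra h6
          rw [not_lt] at h6
          have h7 : 0 ≤ (1 / 2 - b2 ^ 2) * (2 * (1 / 2) * x2 - 1 * x1) := mul_nonneg (by linarith only [h6]) hv.le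
          have h8 : 0 ≤ (1 / 2 - b2 ^ 2) * (x1 * (2 * (1 / 2)) - x2 * 0) := mul_nonneg (by linarith only [h6]) hu.le
          have h9 : 0 < (1 / 2) * (x1 * (2 * (1 / 2)) - x2 * 0) := mul_pos (by norm_num) hu
          linarith only [hcu, h7, h8, h9]
        · exfalso
          have h3 : b < b2 := by linarith only [hbc]
          have h4 : b ^ 2 < b2 ^ 2 := pow_lt_pow_left₀ h3 hb0.le two_ne_zero
          have h5 : 0 ≤ (b ^ 2 - 1 / 2) * b2 ^ 2 := mul_nonneg (by linarith only [h5]) (sq_nonneg b2)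
          have h7 : 2 * b * (2 * b * 0 + 1 * b2) * (r * 0 + 2 * b * b2) = 4 * (b ^ 2 * b2 ^ 2) := by ring
          have h8 : (2 * b * 0 + 1 * b2) ^ 2 = b2 ^ 2 := by ring
          rw [h7, h8] at h2
          linarith only [h2, h4, h5]
      · -- `(2, 4, 4)`
        subst k4
        have hr' : r = 0 := by linarith only [k3, hr]
        subst hr'
        have hb2b : b2 = b := by
          have h5 : b2 ^ 2 = b ^ 2 := by linarith only [k1, k2]
          exact (pow_left_inj₀ n2 hb0.le two_ne_zero).1 h5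
        rw [hb2b, k3] at G
        have f1 : (1 : ℝ) * 0 + 2 * b * b = 1 := by linarith only [k1]
        have f2 : (0 : ℝ) * 0 + 1 * b = b := by ring
        rw [f1, f2] at G
        have p1 := X.p1
        exact G.end4 L O.rh.mem hb0 k1 (by linarith only [p1]) (by rw [← k3]; exact hv) hu'
          (by rw [← k3]; exact hv')
      · -- `(2, 3, 6)`
        subst k1 k3
        have hr' : r = 1 := by
          rw [hr, k4]
          linarith only [k2]
        subst hr' k4
        have f1 : 2 * b * 0 + 2 * (1 / 2) = 1 := by ring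
        have f2 : (1 : ℝ) * 0 + 2 * b * (1 / 2) = b := by ring
        rw [f1, f2] at G
        refine G.end6 L hb0 k2 ?_ hv hu' hv'
        -- `Z1 u`
        have m1 : x2 • d2 + g • t + x1 • d1 ∈ Ψ := by
          have e : x2 • d2 + g • t + x1 • d1 = g • t + x1 • d1 + x2 • d2 := by abel
          rw [e, ← X.e]
          exact L.xm
        have m2 := (L.tri.rot89.rot89 : Tri Ψ B d2 t d1).rfa89 m1
        have m3 := L.tri.rfa89 (α := g) (β := x1)
          (γ := 2 * -B d2 t * g + 2 * -B d2 d1 * x1 - x2) (by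
            have e : g • t + x1 • d1 + (2 * -B d2 t * g + 2 * -B d2 d1 * x1 - x2) • d2 =
              (2 * -B d2 t * g + 2 * -B d2 d1 * x1 - x2) • d2 + g • t + x1 • d1 := by abel
            rw [e]
            exact m2)
        rcases L.tri.sgn89 m3 rfl with ⟨h5, -, -⟩ | ⟨h5, -, -⟩
        · have e : 2 * -B t d1 * x1 + 2 * -B t d2 * (2 * -B d2 t * g + 2 * -B d2 d1 * x1 - x2) - g =
              x1 * (2 * b) - x2 * 1 := by
            rw [L.tri.symm d2 t, L.tri.symm d2 d1, ebB, ebB1, ebB2]
            ring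
          rw [e] at h5
          rcases h5 with h5 | h5
          · linarith only [hu, h5]
          · exact h5
        · exfalso
          have e : 2 * -B t d1 * x1 + 2 * -B t d2 * (2 * -B d2 t * g + 2 * -B d2 d1 * x1 - x2) - g =
              x1 * (2 * b) - x2 * 1 := by
            rw [L.tri.symm d2 t, L.tri.symm d2 d1, ebB, ebB1, ebB2]
            ring
          rw [e] at h5
          have := e0Z1 h5
          linarith only [hu, this]
    · rcases C2.b_cases with h4 | h4
      · -- `b2 = 0`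
        subst h4
        have h5 : 0 < b1 := by linarith only [h3]
        have hr1 : 0 < r := by
          rcases hr0.lt_or_eq with h | h
          · exact h
          · exfalso
            rw [← h] at hcd
            have e : (w * b1 + p * 0) * (0 * b1 + w * 0) = 0 := by ring
            rw [e] at hcd
            linarith only [hb, hcd]
        have nrm' : w ^ 2 + r ^ 2 - 2 * b * w * r = 1 := by
          rw [hr]
          linear_combination nrm
        rcases seq89 (b := b) (e := b1) (X := w) (Y := r) (fun _ _ h => h.symm) cl po sO'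
          nrm' lb hb0 (C1.lab3_89 h5) h5 (by linarith only [hq]) hr1 (by linarith only [hc]) (by linarith only [hbc])
          (by linarith only [hcd]) with h | ⟨k1, k2, k3, k4⟩ | ⟨k1, k2, k3, k4⟩
        · linarith only [hr, hp, h]
        · -- `(4, 2, 4)`
          subst k3 k4
          have hp1 : p = 1 := by linarith only [k1, hr]
          subst hp1
          have hb1b : b1 = b := by
            have h5 : b1 ^ 2 = b ^ 2 := by linarith only [k1, k2]
            exact (pow_left_inj₀ n1 hb0.le two_ne_zero).1 h5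
          rw [hb1b] at G
          have f1 : 2 * b * b + (1 : ℝ) * 0 = 1 := by linarith only [hr]
          have f2 : (1 : ℝ) * b + 2 * b * 0 = b := by ring
          rw [f1, f2] at G
          refine G.end4 L O.rh.mem hb0 k1 ?_ hv hu' hv'
          have p1 := X.p1
          rcases X.c.r2 with ⟨-, h6, -⟩ | h6
          · linarith only [p1, h6]
          · have e : 2 * -B t d2 * g + 2 * -B d1 d2 * x1 - x2 = x1 * (2 * b) - x2 * 1 := by
              rw [ebB, ebB2]
              ring
            rw [e] at h6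
            rcases h6 with h6 | h6
            · linarith only [hu, h6]
            · exact h6
        · -- `(3, 2, 6)`
          subst k1 k3
          have hp1 : p = 2 * b := by linarith only [k4, hr]
          subst hp1 k4
          have f1 : (2 : ℝ) * (1 / 2) + 2 * b * 0 = 1 := by ring
          have f2 : 2 * b * (1 / 2) + (2 : ℝ) * 0 = b := by ring
          rw [f1, f2] at G
          refine G.end6 L hb0 k2 ?_ hv hu' hv'
          have m1 : x2 • d2 + g • t + x1 • d1 ∈ Ψ := by
            have e : x2 • d2 + g • t + x1 • d1 = g • t + x1 • d1 + x2 • d2 := by abel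
            rw [e, ← X.e]
            exact L.xm
          have m2 := (L.tri.rot89.rot89 : Tri Ψ B d2 t d1).rfa89 m1
          obtain ⟨y2, hy2⟩ : ∃ y2, y2 = 2 * -B d2 t * g + 2 * -B d2 d1 * x1 - x2 := ⟨_, rfl⟩
          rw [← hy2] at m2
          have m3 := (L.tri.rot89 : Tri Ψ B d1 d2 t).rfa89 (α := x1) (β := y2) (γ := g) (by
            have e : x1 • d1 + y2 • d2 + g • t = y2 • d2 + g • t + x1 • d1 := by abel
            rw [e]
            exact m2)
          obtain ⟨y1, hy1⟩ : ∃ y1, y1 = 2 * -B d1 d2 * y2 + 2 * -B d1 t * g - x1 := ⟨_, rfl⟩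
          rw [← hy1] at m3
          have m4 := L.tri.rfa89 (α := g) (β := y1) (γ := y2) (by
            have e : g • t + y1 • d1 + y2 • d2 = y1 • d1 + y2 • d2 + g • t := by abel
            rw [e]
            exact m3)
          have e : 2 * -B t d1 * y1 + 2 * -B t d2 * y2 - g = x1 * 2 - x2 * (2 * b) := by
            rw [hy1, hy2, L.tri.symm d2 t, L.tri.symm d2 d1, L.tri.symm d1 t, ebB, ebB1, ebB2]
            linear_combination 4 * x1 * k2
          rw [e] at m4
          rcases L.tri.sgn89 m4 rfl with ⟨h6, -, -⟩ | ⟨h6, -, -⟩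
          · rcases h6 with h6 | h6
            · linarith only [hu, h6]
            · exact h6
          · exfalso
            have := e0Z1 h6
            linarith only [hu, this]
      · -- `(3, 3, 3)`
        have h5 : 0 ≤ (w - 1) * b1 := mul_nonneg (by linarith only [hq]) n1
        have h6 : 0 ≤ (p - 1) * b2 := mul_nonneg (by linarith only [hp]) n2
        have k1 : b1 = 1 / 2 := by linarith only [hc, h3, h4, h5, h6]
        have k2 : b2 = 1 / 2 := by linarith only [hc, h4, h5, h6, k1]
        subst k1 k2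
        have k3 : w = 1 := by linarith only [h5, h6, hc]
        have k4 : p = 1 := by linarith only [h6, hc, k3]
        subst k3 k4
        have k5 : b = 1 / 2 := by linarith only [nrm]
        subst k5
        have k6 : r = 0 := by linarith only [hr]
        subst k6
        have f1 : (1 : ℝ) * (1 / 2) + 1 * (1 / 2) = 1 := by norm_num
        have f2 : (0 : ℝ) * (1 / 2) + 1 * (1 / 2) = 1 / 2 := by norm_num
        rw [f1, f2] at G
        obtain ⟨e1, e2, -, -, hu2, -⟩ := G.eq hu hv hu' hv' L.rx' L.sum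
        have p1 := X.p1
        have hx1 : x1 = 1 := by linarith only [hu2, p1]
        rcases X.c.r2 with ⟨-, h6, -⟩ | h6
        · linarith only [hx1, h6]
        · rw [ebB, ebB2] at h6
          rcases h6 with h6 | h6
          · have : 1 * x2 - 1 * x1 = 2 := by linarith only [e1, hx1, h6]
            rw [this] at e2
            norm_num at e2
          · linarith only [hv, e1, hx1, h6]

end DY
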