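import Pool.Agent.Helper9.DY.K
import Pool.Agent.Helper9.DY.NG
import Pool.Agent.Helper32.DY.Root
import Pool.Agent.Helper89.DY.Gap4

/-!
# The mirror chamber: `b2 = 0`, `h = r_2 d1` is the case `b1 = 0`, `h = d2` in `r_2 D` (MP_d13a5e_al)

`XA` is `Xs` without the strip of `d1`. It holds in the chamber of the foot and, for `b2 = 0`, in the chamber
`r_2 D = (t; -d2, h)`.
-/

set_option autoImplicit false

namespace DY

open Set
open Pool.Agent.Helper62.DY (RT rt_of_tri)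
open Pool.Agent.Helper32.DY (Two fm fw fe bf z1_nonneg z1_one)

variable {E : Type*} [AddCommGroup E] [Module ℝ E]
variable {Ψ : Set E} {B : E →ₗ[ℝ] E →ₗ[ℝ] ℝ} {ρ φ : E →ₗ[ℝ] ℝ} {t d1 d2 x x' : E}
variable {g x1 x2 g' x1' x2' : ℝ}

/-- the lower bound from `foot` and `ult` -/
theorem ult_low89 {c f r e : ℝ} (hS : Str c f r) (hc : 1 ≤ c) (he : e < c) (hq : 1 + e ^ 2 ≤ 2 * c * e) :
    -e ≤ r := by
  by_contra hcon
  have h0 := hS.foot
  have h1 := hS.ult hc
  have h2 : (r + e) * (r - e + 2 * c) < 0 := mul_neg_of_neg_of_pos (by linarith) (by linarith)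
  nlinarith

/-- the data of case II in a chamber at `t`, without the strip of `d1` (no foot at `d1`) -/
structure XA (Ψ : Set E) (B : E →ₗ[ℝ] E →ₗ[ℝ] ℝ) (ρ φ : E →ₗ[ℝ] ℝ) (t d1 d2 x x' : E)
    (g x1 x2 g' x1' x2' : ℝ) : Prop where
  tri : Tri Ψ B t d1 d2
  rt : ρ t = 1
  ft : φ t = 1
  xm : x ∈ Ψ
  xm' : x' ∈ Ψ
  cxx : Canon Ψ x x'
  cxt : Canon Ψ x t
  cxt' : Canon Ψ x' t
  ind : ∀ α β γ : ℝ, α • x + β • x' + γ • t = 0 → α = 0 ∧ β = 0 ∧ γ = 0
  sp : ∀ u ∈ Ψ, ∃ α β : ℝ, u = α • x + β • x' + φ u • t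
  rx0 : 0 ≤ ρ x
  rx0' : 0 ≤ ρ x'
  pos : 0 < ρ x + ρ x'
  sum : ρ x + ρ x' ≤ 1
  h1 : 0 ≤ φ d1
  h2 : φ d2 < 0
  e : x = g • t + x1 • d1 + x2 • d2
  e' : x' = g' • t + x1' • d1 + x2' • d2
  c : Crd (-B t d1) (-B t d2) (-B d1 d2) (-φ d1) (-φ d2) g x1 x2
  c' : Crd (-B t d1) (-B t d2) (-B d1 d2) (-φ d1) (-φ d2) g' x1' x2'
  rx : ρ x = g + x1 * ρ d1 + x2 * ρ d2
  rx' : ρ x' = g' + x1' * ρ d1 + x2' * ρ d2
  st : x1 * x2' < x2 * x1'
  p1 : 1 ≤ x1
  p2 : 1 ≤ x2
  p1' : 1 ≤ x1'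
  p2' : 0 ≤ x2'
  str : ∀ n ∈ Ψ, n ∈ C01 t d1 d2 → n ≠ t → n ≠ d1 → Str (-B t n) (φ n) (ρ n)

/-- the chamber of the foot -/
theorem Xs.xa (X : Xs Ψ B ρ φ t d1 d2 x x' g x1 x2 g' x1' x2') :
    XA Ψ B ρ φ t d1 d2 x x' g x1 x2 g' x1' x2' where
  tri := X.L.tri
  rt := X.L.rt
  ft := X.L.ft
  xm := X.L.xm
  xm' := X.L.xm'
  cxx := X.L.cxx
  cxt := X.L.cxt
  cxt' := X.L.cxt'
  ind := X.L.ind
  sp := X.L.sp
  rx0 := X.L.rx
  rx0' := X.L.rx'
  pos := X.L.pos
  sum := X.L.sum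
  h1 := X.h1
  h2 := X.h2
  e := X.e
  e' := X.e'
  c := X.c
  c' := X.c'
  rx := X.rx
  rx' := X.rx'
  st := X.st
  p1 := X.p1
  p2 := X.p2
  p1' := X.p1'
  p2' := X.p2'
  str := fun n h1 h2 h3 _ => X.L.str n h1 h2 h3

/-- coordinates of a root with positive coefficients -/
theorem Tri.crd89 (hT : Tri Ψ B t d1 d2) {φ : E →ₗ[ℝ] ℝ} (hft : φ t = 1) {v : E} (hv : v ∈ Ψ) (hB : B t v ≤ 0)
    (hφ : φ v = 0) {g x1 x2 : ℝ} (e : v = g • t + x1 • d1 + x2 • d2) (h1 : 0 < x1) (h2 : 0 < x2) :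
    Crd (-B t d1) (-B t d2) (-B d1 d2) (-φ d1) (-φ d2) g x1 x2 := by
  have hR := rt_of_tri hT
  have hm : g • t + x1 • d1 + x2 • d2 ∈ Ψ := by
    rw [← e]
    exact hv
  obtain ⟨zg, z1, z2⟩ := hR.z1 hm h1
  refine ⟨zg, Or.inr z1, z2, hR.n _ _ _ hm, ?_, ?_, ?_, ?_, ?_⟩
  · rw [e] at hB
    simp only [map_add, map_smul, smul_eq_mul, hT.one t hT.ha] at hB
    linarith
  · exact (hR.z1 (hR.r0 _ _ _ hm) h1).1
  · exact Or.inr (hR.z2 (hR.r1 _ _ _ hm) h2).2.1
  · exact Or.inr (hR.z1 (hR.r2 _ _ _ hm) h1).2.2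
  · rw [e] at hφ
    simp only [map_add, map_smul, smul_eq_mul, hft] at hφ
    linarith

/-- **the mirror chamber** -/
theorem Xs.mir89 (X : Xs Ψ B ρ φ t d1 d2 x x' g x1 x2 g' x1' x2') (hb : B t d2 = 0) {y : ℝ}
    (hy : y = 2 * -B d1 d2) (fh : φ d1 + y * φ d2 < 0) (u0 : 0 < y * x1 - x2) (u0' : 0 < y * x1' - x2') :
    XA Ψ B ρ φ t (-d2) (d1 + y • d2) x x' g (y * x1 - x2) x1 g' (y * x1' - x2') x1' := by
  have hT := X.L.tri
  have hR := rt_of_tri hT
  have hT' : Tri Ψ B t (-d2) (d1 + y • d2) := by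
    refine (Tri.flip89 hT.rot89.rot89 (x := 0) (y := y) ?_ ?_ (by module) rfl).swapW
    · rw [hT.symm, hb]
      norm_num
    · rw [hT.symm, hy]
      ring
  have e1 : x = g • t + (y * x1 - x2) • (-d2) + x1 • (d1 + y • d2) := by
    rw [X.e]
    module
  have e1' : x' = g' • t + (y * x1' - x2') • (-d2) + x1' • (d1 + y • d2) := by
    rw [X.e']
    module
  have hc : Crd (-B t (-d2)) (-B t (d1 + y • d2)) (-B (-d2) (d1 + y • d2)) (-φ (-d2)) (-φ (d1 + y • d2))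
      g (y * x1 - x2) x1 :=
    hT'.crd89 X.L.ft X.L.xm (X.L.cxt.nonpos hT.sys X.L.xm hT.ha) X.L.fx e1 u0 (by linarith [X.p1])
  have hc' : Crd (-B t (-d2)) (-B t (d1 + y • d2)) (-B (-d2) (d1 + y • d2)) (-φ (-d2)) (-φ (d1 + y • d2))
      g' (y * x1' - x2') x1' :=
    hT'.crd89 X.L.ft X.L.xm' (X.L.cxt'.nonpos hT.sys X.L.xm' hT.ha) X.L.fx' e1' u0' (by linarith [X.p1'])
  have one : ∀ {u : ℝ}, Z1 u → 0 < u → 1 ≤ u := by
    intro u h h0
    rcases h with h | h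
    · exact absurd h h0.ne'
    · exact h
  exact
    { tri := hT'
      rt := X.L.rt
      ft := X.L.ft
      xm := X.L.xm
      xm' := X.L.xm'
      cxx := X.L.cxx
      cxt := X.L.cxt
      cxt' := X.L.cxt'
      ind := X.L.ind
      sp := X.L.sp
      rx0 := X.L.rx
      rx0' := X.L.rx'
      pos := X.L.pos
      sum := X.L.sum
      h1 := by
        rw [map_neg]
        linarith [X.h2]
      h2 := by
        rw [map_add, map_smul, smul_eq_mul]
        exact fh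
      e := e1
      e' := e1'
      c := hc
      c' := hc'
      rx := by
        rw [X.rx, map_add, map_smul, map_neg, smul_eq_mul]
        ring
      rx' := by
        rw [X.rx', map_add, map_smul, map_neg, smul_eq_mul]
        ring
      st := by
        have := X.st
        nlinarith
      p1 := one hc.z1 u0
      p2 := X.p1
      p1' := one hc'.z1 u0'
      p2' := by linarith [X.p1']
      str := by
        intro n hn hp hne hne'
        refine X.L.str n hn ?_ hne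
        rcases hT.pos n hn with h | ⟨α', β', γ', e', k1, k2, k3⟩
        · exact h
        · exfalso
          obtain ⟨α, β, γ, e, l1, l2, l3⟩ := hp
          obtain ⟨m1, m2, m3⟩ := hT.indep (α + α') (γ + β') (y * γ - β + γ') (by
            have : (α + α') • t + (γ + β') • d1 + (y * γ - β + γ') • d2 =
              (α • t + β • (-d2) + γ • (d1 + y • d2)) + (α' • t + β' • d1 + γ' • d2) := by module
            rw [this, ← e, ← e']
            abel)
          have n1 := z1_nonneg l1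
          have n3 := z1_nonneg l3
          have n1' := z1_nonneg k1
          have n2' := z1_nonneg k2
          have a0 : α = 0 := by linarith
          have c0 : γ = 0 := by linarith
          have e2 : n = β • (-d2) := by
            rw [e, a0, c0]
            module
          have h3 := hT.one n hn
          rw [e2] at h3
          simp only [map_smul, map_neg, LinearMap.smul_apply, LinearMap.neg_apply, smul_eq_mul,
            hT.one d2 hT.hc] at h3
          have h4 := z1_nonneg l2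
          have h5 : β = 1 := by nlinarith
          exact hne' (by rw [e2, h5, one_smul]) }

namespace XA

/-- helper32's structure -/
theorem two (X : XA Ψ B ρ φ t d1 d2 x x' g x1 x2 g' x1' x2') :
    Two (-B t d1) (-B t d2) (-B d1 d2) (fun g x1 x2 => g • t + x1 • d1 + x2 • d2 ∈ Ψ) (-φ d2) (φ d1)
      g' x1' x2' g x1 x2 := by
  have hR := rt_of_tri X.tri
  have hT := X.tri
  have hBxx := X.cxx.nonpos hT.sys X.xm X.xm'
  rw [X.e, X.e'] at hBxx
  simp only [map_add, map_smul, LinearMap.add_apply, LinearMap.smul_apply, smul_eq_mul, hT.one t hT.ha,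
    hT.one d1 hT.hb, hT.one d2 hT.hc, hT.symm d1 t, hT.symm d2 t, hT.symm d2 d1] at hBxx
  exact
    { h := hR
      hx := by
        show g' • t + x1' • d1 + x2' • d2 ∈ Ψ
        rw [← X.e']
        exact X.xm'
      hy := by
        show g • t + x1 • d1 + x2 • d2 ∈ Ψ
        rw [← X.e]
        exact X.xm
      p1 := X.p1'
      v1 := X.p1
      p2 := X.p2'
      q2 := X.p2
      fx := by linarith [X.c'.fz]
      fy := by linarith [X.c.fz]
      hf := X.h1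
      hκ := by linarith [X.h2]
      st := by linarith [X.st]
      hB := by
        unfold bf
        linarith
      obt := by linarith [X.c.obt] }

/-- the same with the labels as variables -/
theorem two' (X : XA Ψ B ρ φ t d1 d2 x x' g x1 x2 g' x1' x2') {b1 b2 bO : ℝ} (h1 : -B t d1 = b1)
    (h2 : -B t d2 = b2) (h0 : -B d1 d2 = bO) :
    Two b1 b2 bO (fun g x1 x2 => g • t + x1 • d1 + x2 • d2 ∈ Ψ) (-φ d2) (φ d1)
      g' x1' x2' g x1 x2 := by
  rw [← h1, ← h2, ← h0]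
  exact X.two

theorem val_ρ (X : XA Ψ B ρ φ t d1 d2 x x' g x1 x2 g' x1' x2') (α β γ : ℝ) :
    ρ (α • t + β • d1 + γ • d2) = α + β * ρ d1 + γ * ρ d2 := by
  rw [map_add, map_add, map_smul, map_smul, map_smul, X.rt]
  simp only [smul_eq_mul]
  ring

theorem val_φ (X : XA Ψ B ρ φ t d1 d2 x x' g x1 x2 g' x1' x2') (α β γ : ℝ) :
    φ (α • t + β • d1 + γ • d2) = α + β * φ d1 + γ * φ d2 := by
  rw [map_add, map_add, map_smul, map_smul, map_smul, X.ft]
  simp only [smul_eq_mul]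
  ring

theorem val_B (X : XA Ψ B ρ φ t d1 d2 x x' g x1 x2 g' x1' x2') (α β γ : ℝ) :
    -B t (α • t + β • d1 + γ • d2) = -B t d1 * β + -B t d2 * γ - α := by
  simp only [map_add, map_smul, smul_eq_mul, X.tri.one t X.tri.ha]
  ring

/-- the strip of a root in coordinates -/
theorem strp (X : XA Ψ B ρ φ t d1 d2 x x' g x1 x2 g' x1' x2') {α β γ : ℝ}
    (hm : α • t + β • d1 + γ • d2 ∈ Ψ) (hγ : 0 < γ) :
    Str (-B t d1 * β + -B t d2 * γ - α) (α + β * φ d1 + γ * φ d2) (α + β * ρ d1 + γ * ρ d2) := by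
  have hR := rt_of_tri X.tri
  obtain ⟨z0, z1, z2⟩ := hR.z2 hm hγ
  have h1 := X.str _ hm ⟨_, _, _, rfl, z0, z1, Or.inr z2⟩ (by
    intro h
    obtain ⟨-, -, h2⟩ := X.tri.indep (α - 1) β γ (by
      have : (α - 1) • t + β • d1 + γ • d2 = (α • t + β • d1 + γ • d2) - t := by module
      rw [this, h, sub_self])
    linarith) (by
    intro h
    obtain ⟨-, -, h2⟩ := X.tri.indep α (β - 1) γ (by
      have : α • t + (β - 1) • d1 + γ • d2 = (α • t + β • d1 + γ • d2) - d1 := by module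
      rw [this, h, sub_self])
    linarith)
  rw [X.val_B, X.val_φ, X.val_ρ] at h1
  exact h1

/-- the strip of `d2` -/
theorem str2 (X : XA Ψ B ρ φ t d1 d2 x x' g x1 x2 g' x1' x2') : Str (-B t d2) (φ d2) (ρ d2) := by
  have h1 := X.strp (α := 0) (β := 0) (γ := 1) (by
    have : (0 : ℝ) • t + (0 : ℝ) • d1 + (1 : ℝ) • d2 = d2 := by module
    rw [this]
    exact X.tri.hc) one_pos
  simp only [mul_zero, zero_mul, mul_one, one_mul, zero_add, sub_zero] at h1
  exact h1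

/-- lower bound `-e ≤ ρ n`, `e + 1 / e ≤ 2 c` -/
theorem low (X : XA Ψ B ρ φ t d1 d2 x x' g x1 x2 g' x1' x2') {α β γ c e : ℝ}
    (hm : α • t + β • d1 + γ • d2 ∈ Ψ) (hγ : 0 < γ) (hc : -B t d1 * β + -B t d2 * γ - α = c)
    (hc1 : 1 ≤ c) (he : e < c) (hq : 1 + e ^ 2 ≤ 2 * c * e) : -e ≤ α + β * ρ d1 + γ * ρ d2 := by
  have h1 := X.strp hm hγ
  rw [hc] at h1
  exact ult_low89 h1 hc1 he hq

/-- no root in the plane of `t` and `d2` vanishes at `F` -/
theorem no_flat (X : XA Ψ B ρ φ t d1 d2 x x' g x1 x2 g' x1' x2') {α β : ℝ}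
    (hm : α • t + β • d2 ∈ Ψ) (h0 : α + β * φ d2 = 0) : False := by
  have hφ : φ (α • t + β • d2) = 0 := by
    rw [map_add, map_smul, map_smul, X.ft]
    simp only [smul_eq_mul]
    linarith
  obtain ⟨a, b, h0'⟩ := X.sp _ hm
  have h : α • t + β • d2 = a • x + b • x' := by
    rw [hφ] at h0'
    rw [h0']
    module
  have h2 : α • t + (0 : ℝ) • d1 + β • d2 =
      (a * g + b * g') • t + (a * x1 + b * x1') • d1 + (a * x2 + b * x2') • d2 := by
    have e0 : α • t + (0 : ℝ) • d1 + β • d2 = α • t + β • d2 := by module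
    rw [e0, h, X.e, X.e']
    module
  obtain ⟨-, h3, -⟩ := X.tri.coordW h2
  have p1 := X.p1
  have p1' := X.p1'
  rcases X.cxx _ hm a b h with (⟨k1, k2⟩ | ⟨k1, k2⟩ | ⟨k1, k2⟩) | (⟨k1, k2⟩ | ⟨k1, k2⟩ | ⟨k1, k2⟩)
  · rw [k1, k2] at h3
    linarith
  · rw [k1, k2] at h3
    linarith
  · nlinarith
  · have k3 : a = 0 := by linarith
    have k4 : b = -1 := by linarith
    rw [k3, k4] at h3
    linarith
  · have k3 : a = -1 := by linarith
    have k4 : b = 0 := by linarith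
    rw [k3, k4] at h3
    linarith
  · nlinarith

/-- `F` in the fan: the values are positive up to the index -/
theorem fm_pos (X : XA Ψ B ρ φ t d1 d2 x x' g x1 x2 g' x1' x2') {k : ℕ}
    (hk : ∀ i < k, sq (-B t d2) (i + 1) * φ d2 + sq (-B t d2) i ≤ 0) :
    ∀ i ≤ k, 0 < fm (-B t d2) (-φ d2) i := by
  intro i hi
  cases i with
  | zero => exact one_pos
  | succ i =>
    have h1 := hk i (by omega)
    have h2 : 0 ≤ fm (-B t d2) (-φ d2) (i + 1) := by
      show 0 ≤ -φ d2 * sq (-B t d2) (i + 1) - sq (-B t d2) i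
      linarith
    rcases h2.lt_or_eq with h3 | h3
    · exact h3
    · exfalso
      have h4 : -φ d2 * sq (-B t d2) (i + 1) - sq (-B t d2) i = 0 := h3.symm
      have hm := X.tri.cp'.mem i
      unfold pu at hm
      refine X.no_flat hm ?_
      linarith

/-- **criterion K** at the vertex of `t` and `d2` -/
theorem kcrit (X : XA Ψ B ρ φ t d1 d2 x x' g x1 x2 g' x1' x2') {k : ℕ} (hG : Good (-B t d2) (φ d2) k)
    (hK : sq (-B t d2) (k + 1) * x1' ≤
      (1 - (sq (-B t d2) (k + 1) * φ d2 + sq (-B t d2) k)) * (x2 * x1' - x1 * x2')) : False := by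
  have hnk := hG.nk X.str2 X.h2
  have hsk := hG.hs k le_rfl
  have hD : 0 < x2 * x1' - x1 * x2' := by linarith [X.st]
  set s := sq (-B t d2) (k + 1) with hsdef
  set s0 := sq (-B t d2) k with hs0def
  have f1 : g + x1 * φ d1 + x2 * φ d2 = 0 := by
    have := X.c.fz
    linarith
  have f2 : g' + x1' * φ d1 + x2' * φ d2 = 0 := by
    have := X.c'.fz
    linarith
  have r0 := X.rx0
  have r1 := X.rx0'
  have r2 := X.sum
  rw [X.rx] at r0
  rw [X.rx'] at r1
  rw [X.rx, X.rx'] at r2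
  have key : (x2 * x1' - x1 * x2') * (s * ρ d2 + s0) =
      s * x1' * (g + x1 * ρ d1 + x2 * ρ d2) - s * x1 * (g' + x1' * ρ d1 + x2' * ρ d2) +
        (x2 * x1' - x1 * x2') * (s * φ d2 + s0) := by
    linear_combination (s * x1) * f2 - (s * x1') * f1
  have e1 : s * x1' * (g + x1 * ρ d1 + x2 * ρ d2) ≤ s * x1' * 1 :=
    mul_le_mul_of_nonneg_left (by linarith) (mul_nonneg hsk.le (by linarith [X.p1']))
  have e2 : 0 ≤ s * x1 * (g' + x1' * ρ d1 + x2' * ρ d2) :=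
    mul_nonneg (mul_nonneg hsk.le (by linarith [X.p1])) r1
  have e3 := mul_lt_mul_of_pos_left hnk hD
  nlinarith

end XA

/-- **GAP1, `b1 = 0`, `h = d2`, for the chamber data without the strip of `d1`** -/
def G1M (Ψ : Set E) (B : E →ₗ[ℝ] E →ₗ[ℝ] ℝ) : Prop :=
  ∀ (ρ φ : E →ₗ[ℝ] ℝ) (t d1 d2 x x' : E) (g x1 x2 g' x1' x2' bO : ℝ),
    XA Ψ B ρ φ t d1 d2 x x' g x1 x2 g' x1' x2' → B t d1 = 0 → -B d1 d2 = bO → 1 / 2 ≤ bO →
    1 < 2 * bO * -B t d2 → 0 ≤ φ d1 + 2 * bO * φ d2 → 2 * bO * x1 < x2 → 2 * bO * x1' ≤ x2' → False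

/-- the chamber of the foot, `b1 = 0`, `h = d2` -/
theorem gap1_d2_of (H : G1M Ψ B) {al1 al2 : ℝ} (X : Xs Ψ B ρ φ t d1 d2 x x' g x1 x2 g' x1' x2')
    (O : OFA Ψ B φ d1 d2 al1 al2 0 1) (hb : B t d1 = 0) (h0 : 1 / 2 ≤ -B d1 d2)
    (h4 : 1 < al1 * -B t d1 + al2 * -B t d2) (v0 : 0 < al1 * x2 - al2 * x1)
    (v0' : 0 ≤ al1 * x2' - al2 * x1') : False := by
  have k1 : al1 = 1 := by
    have := O.det
    linarith
  have k2 : al2 = 2 * -B d1 d2 := by
    have := O.adj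
    rw [k1] at this
    linarith
  have hfa := O.fa
  rw [k1, k2] at h4 v0 v0' hfa
  rw [hb] at h4
  exact H ρ φ t d1 d2 x x' g x1 x2 g' x1' x2' _ X.xa hb rfl h0 (by linarith) (by linarith) (by linarith)
    (by linarith)

/-- **family (A)**: `b2 = 0`, `h = d1 + 2 bO d2 = r_2 d1` -/
theorem gap1_A_of (H : G1M Ψ B) {al1 al2 : ℝ} (X : Xs Ψ B ρ φ t d1 d2 x x' g x1 x2 g' x1' x2')
    (O : OFA Ψ B φ d1 d2 al1 al2 1 (2 * -B d1 d2)) (hb : B t d2 = 0) (h0 : 1 / 2 ≤ -B d1 d2)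
    (h4 : 1 < al1 * -B t d1 + al2 * -B t d2) (u0 : 0 < x1 * (2 * -B d1 d2) - x2 * 1)
    (u0' : 0 < x1' * (2 * -B d1 d2) - x2' * 1) (v0 : 0 < al1 * x2 - al2 * x1)
    (v0' : 0 ≤ al1 * x2' - al2 * x1') : False := by
  obtain ⟨y, hy⟩ : ∃ y, y = 2 * -B d1 d2 := ⟨_, rfl⟩
  have hT := X.L.tri
  have hD := O.det
  have hA := O.adj
  have hN := O.ra.nrm
  have hfa := O.fa
  have hfh := O.fh
  have hb0 : B d1 d2 = -(y / 2) := by linarith
  rw [← hy] at hD hA hfh u0 u0'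
  rw [hb0] at hA hN
  have k2 : al2 = al1 * y - 1 := by linarith
  have k1 : al1 = y := by
    rw [k2] at hA
    linarith
  have k2' : al2 = y ^ 2 - 1 := by
    rw [k2, k1]
    ring
  rw [k1, k2'] at h4 v0 v0' hfa
  have M := X.mir89 hb hy (by linarith) (by linarith) (by linarith)
  have e1 : B t (-d2) = 0 := by
    rw [map_neg, hb, neg_zero]
  have e2 : -B (-d2) (d1 + y • d2) = y / 2 := by
    simp only [map_add, map_smul, map_neg, LinearMap.neg_apply, smul_eq_mul, hT.one d2 hT.hc,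
      hT.symm d2 d1]
    linarith
  have e3 : B t (d1 + y • d2) = B t d1 := by
    rw [map_add, map_smul, smul_eq_mul, hb]
    ring
  refine H ρ φ t (-d2) (d1 + y • d2) x x' g _ x1 g' _ x1' (y / 2) M e1 e2 (by linarith) ?_ ?_ ?_ ?_
  · rw [e3]
    rw [hb] at h4
    linarith
  · rw [map_neg, map_add, map_smul, smul_eq_mul]
    nlinarith
  · nlinarith
  · nlinarith

end DY
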