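import Pool.Agent.Helper89.DY.Mir
import Pool.Agent.Helper29.DY.GpA

/-!
# The data of helper29 in the mirror chamber (MP_d13a5e_al)
-/

set_option autoImplicit false

namespace DY

open Set
open Pool.Agent.Helper62.DY (RT rt_of_tri)
open Pool.Agent.Helper32.DY (Two fm fw fe bf z1_nonneg z1_one)
open DY.St29 (Co ix_gen kinf_ex)

variable {E : Type*} [AddCommGroup E] [Module ℝ E]
variable {Ψ : Set E} {B : E →ₗ[ℝ] E →ₗ[ℝ] ℝ} {ρ φ : E →ₗ[ℝ] ℝ} {t d1 d2 x x' : E}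
variable {g x1 x2 g' x1' x2' : ℝ}

namespace XA

theorem le_one (X : XA Ψ B ρ φ t d1 d2 x x' g x1 x2 g' x1' x2') :
    g + x1 * ρ d1 + x2 * ρ d2 ≤ 1 ∧ 0 ≤ g + x1 * ρ d1 + x2 * ρ d2 ∧
      0 ≤ g' + x1' * ρ d1 + x2' * ρ d2 ∧ g' + x1' * ρ d1 + x2' * ρ d2 ≤ 1 := by
  have h0 := X.rx0
  have h1 := X.rx0'
  have h2 := X.sum
  rw [X.rx] at h0 h2
  rw [X.rx'] at h1 h2
  exact ⟨by linarith, h0, h1, by linarith⟩

/-- the data of helper29 -/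
theorem co (X : XA Ψ B ρ φ t d1 d2 x x' g x1 x2 g' x1' x2') (ha : 0 ≤ φ d1 + 2 * -B d1 d2 * φ d2)
    (hz : 0 < x2 - 2 * -B d1 d2 * x1) : ∃ k τ, Co (-B t d1) (-B t d2) (-B d1 d2)
      (fun g x1 x2 => g • t + x1 • d1 + x2 • d2 ∈ Ψ) (-φ d2) (φ d1) (ρ d1) (ρ d2) g x1 x2 g' x1' x2' k τ := by
  obtain ⟨k, τ, I⟩ := ix_gen X.tri.cp' X.ft X.h2 (fun _ _ hm h0 => X.no_flat hm h0) X.two X.str2 ha hz
  obtain ⟨h1, -, h3, -⟩ := X.le_one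
  exact ⟨k, τ, X.two, I, h1, h3, hz, by linarith⟩

/-- `a = d1 + 2 bO d2` is a root -/
theorem mem_a (X : XA Ψ B ρ φ t d1 d2 x x' g x1 x2 g' x1' x2') :
    (0 : ℝ) • t + (1 : ℝ) • d1 + (2 * -B d1 d2) • d2 ∈ Ψ := by
  have h1 := (rt_of_tri X.tri).r2 _ _ _ (rt_of_tri X.tri).e1
  have e1 : 2 * -B t d2 * 0 + 2 * -B d1 d2 * 1 - 0 = 2 * -B d1 d2 := by ring
  rw [e1] at h1
  exact h1

/-- `-e ≤ ρ a`, `e = kinf (c_a)` -/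
theorem hea (X : XA Ψ B ρ φ t d1 d2 x x' g x1 x2 g' x1' x2') (hO : 0 < -B d1 d2) {e : ℝ}
    (hc : 1 < -B t d1 + 2 * -B d1 d2 * -B t d2)
    (he : e ^ 2 - 2 * (-B t d1 + 2 * -B d1 d2 * -B t d2) * e + 1 = 0) (he1 : e < 1) :
    -e ≤ ρ d1 + 2 * -B d1 d2 * ρ d2 := by
  have h1 := X.low X.mem_a (by linarith) (c := -B t d1 + 2 * -B d1 d2 * -B t d2) (e := e) (by ring)
    hc.le (by linarith) (by linarith)
  linarith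

end XA

/-- the real theorem for `b1 = 0`, `h = d2` -/
def G1R (P : ℝ → ℝ → Prop) : Prop :=
  ∀ (b bO : ℝ) (R : ℝ → ℝ → ℝ → Prop) (κ f q1 r g x1 x2 g' x1' x2' : ℝ) (k : ℕ) (τ e : ℝ),
    Co 0 b bO R κ f q1 r g x1 x2 g' x1' x2' k τ → P b bO → 1 < 2 * bO * b →
    e ^ 2 - 2 * (2 * bO * b) * e + 1 = 0 → 0 < e → e < 1 → -e ≤ q1 + 2 * bO * r →
    0 < x2' - 2 * bO * x1' → False

theorem g1m_of {P : ℝ → ℝ → Prop} (H : G1R P) (X : XA Ψ B ρ φ t d1 d2 x x' g x1 x2 g' x1' x2')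
    (hb : B t d1 = 0) (h0 : 1 / 2 ≤ -B d1 d2) (hP : P (-B t d2) (-B d1 d2))
    (h4 : 1 < 2 * -B d1 d2 * -B t d2) (hfa : 0 ≤ φ d1 + 2 * -B d1 d2 * φ d2)
    (v0 : 2 * -B d1 d2 * x1 < x2) (v0' : 2 * -B d1 d2 * x1' ≤ x2') : False := by
  obtain ⟨k, τ, C⟩ := X.co hfa (by linarith)
  rcases v0'.eq_or_lt with h5 | h5
  · exact C.xLa h5.symm
  · obtain ⟨e, he, he0, he1⟩ := kinf_ex h4
    have h6 := X.hea (by linarith) (e := e) (by rw [hb]; linarith) (by rw [hb]; linarith) he1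
    have h7 : -B t d1 = 0 := by rw [hb, neg_zero]
    rw [h7] at C
    exact H _ _ _ _ _ _ _ _ _ _ _ _ _ _ _ _ C hP h4 he he0 he1 h6 (by linarith)

end DY
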