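import Pool.Agent.Helper89.DY.Mir2
import Pool.Agent.Helper14.DY.Core2

/-!
# The case `bO = 1/2` of `b1 = 0`, `h = d2` for `XA`, and the assembly of `G1M` (MP_d13a5e_al)
-/

set_option autoImplicit false

namespace DY

open Set
open Pool.Agent.Helper62.DY (RT rt_of_tri)
open Pool.Agent.Helper32.DY (Two fm fw fe bf z1_nonneg z1_one)

variable {E : Type*} [AddCommGroup E] [Module ℝ E]
variable {Ψ : Set E} {B : E →ₗ[ℝ] E →ₗ[ℝ] ℝ} {ρ φ : E →ₗ[ℝ] ℝ} {t d1 d2 x x' : E}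
variable {g x1 x2 g' x1' x2' : ℝ}

namespace XA

/-- helper14's structure -/
theorem cor (X : XA Ψ B ρ φ t d1 d2 x x' g x1 x2 g' x1' x2') :
    Cor Ψ B ρ φ t d1 d2 x x' g x1 x2 g' x1' x2' where
  tri := X.tri
  rt := X.rt
  ft := X.ft
  xm := X.xm
  xm' := X.xm'
  e := X.e
  e' := X.e'
  cxx := X.cxx
  sp := X.sp
  obt := X.c.obt
  h1 := X.h1
  h2 := X.h2
  fz := by linarith [X.c.fz]
  fz' := by linarith [X.c'.fz]
  st := X.st
  p1 := X.p1
  p2 := X.p2
  p1' := X.p1'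
  p2' := X.p2'
  rx' := X.le_one.2.2.1
  sum := by
    have := X.sum
    rwa [X.rx, X.rx'] at this

/-- the strip of a root with a positive `d2`-coordinate -/
theorem strn (X : XA Ψ B ρ φ t d1 d2 x x' g x1 x2 g' x1' x2') {n : E} {α β γ : ℝ} (hn : n ∈ Ψ)
    (e : n = α • t + β • d1 + γ • d2) (hγ : 0 < γ) : Str (-B t n) (φ n) (ρ n) := by
  have hm : α • t + β • d1 + γ • d2 ∈ Ψ := by
    rw [← e]
    exact hn
  obtain ⟨z0, z1, z2⟩ := (rt_of_tri X.tri).z2 hm hγ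
  rw [e]
  refine X.str _ hm ⟨_, _, _, rfl, z0, z1, Or.inr z2⟩ ?_ ?_
  · intro h
    obtain ⟨-, -, h2⟩ := X.tri.indep (α - 1) β γ (by
      have : (α - 1) • t + β • d1 + γ • d2 = (α • t + β • d1 + γ • d2) - t := by module
      rw [this, h, sub_self])
    linarith
  · intro h
    obtain ⟨-, -, h2⟩ := X.tri.indep α (β - 1) γ (by
      have : α • t + (β - 1) • d1 + γ • d2 = (α • t + β • d1 + γ • d2) - d1 := by module
      rw [this, h, sub_self])
    linarith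

/-- `bO = 1/2` (helper14) -/
theorem half (X : XA Ψ B ρ φ t d1 d2 x x' g x1 x2 g' x1' x2') (hb : B t d1 = 0)
    (hO : B d1 d2 = -(1 / 2)) (hb2 : 1 < -B t d2) (hfa : 0 ≤ φ d1 + φ d2) : False :=
  X.cor.core10 hb hO hb2 hfa X.str2 fun n a c hn e _ hc =>
    X.strn hn (α := a) (β := 1) (γ := c) (by rw [e, one_smul]) (by linarith)

end XA

/-- **assembly of `G1M`** -/
theorem g1m_all (H : G1R fun _ bO => 2 ≤ (2 * bO) ^ 2) : G1M Ψ B := by
  intro ρ φ t d1 d2 x x' g x1 x2 g' x1' x2' bO X hb hO h0 h4 hfa v0 v0'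
  subst hO
  rcases St29.lab ((rt_of_tri X.tri).swap0.swap) with h | h | h | h | h
  · linarith
  · have hO : -B d1 d2 = 1 / 2 := by linarith
    rw [hO] at h4 hfa
    exact X.half hb (by linarith) (by linarith) (by linarith)
  · exact g1m_of H X hb h0 h.ge h4 hfa v0 v0'
  · exact g1m_of H X hb h0 (by linarith) h4 hfa v0 v0'
  · exact g1m_of H X hb h0 (by linarith) h4 hfa v0 v0'

end DY
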