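import Pool.Agent.Helper9.DY.CaseII
import Pool.Agent.Helper9.DY.Pencil

/-!
# GAP4: exclusion of labels (MP_d13a5e_al), the real part

`c = -B(t,a)`, `d = -B(t,h)`, `b = B(a,h)`, `x = g t + u a + v h`.
-/

set_option autoImplicit false

namespace DY

/-- `c d ≥ b`, `2 b c d < b^2 + c^2` -/
theorem ex89 {b c d g u v : ℝ} (hb : 0 < b) (hu : 0 < u) (hv : 0 < v) (hc0 : 0 ≤ c) (hc : c ≤ 1)
    (hA : 0 ≤ c * g - u - b * v) (hT : 0 ≤ c * u + d * v - g)
    (hN : g ^ 2 + u ^ 2 + v ^ 2 - 2 * c * g * u - 2 * d * g * v + 2 * b * u * v = 1) :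
    b ≤ c * d ∧ (1 - c ^ 2) * u ≤ (c * d - b) * v ∧ 2 * b * c * d < b ^ 2 + c ^ 2 ∧ b < c ∧ 0 < g := by
  have hbv : 0 < b * v := mul_pos hb hv
  have hc1 : 0 < c := by
    rcases hc0.lt_or_eq with h | h
    · exact h
    · rw [← h] at hA
      linarith
  have h1 : (1 - c ^ 2) * u ≤ (c * d - b) * v := by
    have := mul_nonneg hc0 hT
    linarith
  have hcc : 0 ≤ 1 - c ^ 2 := by nlinarith
  have h2 : 0 ≤ (c * d - b) * v := le_trans (mul_nonneg hcc hu.le) h1
  have h3 : 0 ≤ c * d - b := nonneg_of_mul_nonneg_left h2 hv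
  have hg : 0 < g := by
    have : 0 < c * g := by linarith
    exact pos_of_mul_pos_right this hc0
  have h4 : 0 ≤ (c * g - u - b * v) * ((c * (c * u + d * v) - c * g) + (c * (c * u + d * v) - (u + b * v))) := by
    apply mul_nonneg hA
    have := mul_nonneg hc0 hT
    linarith
  have h5 : c ^ 2 ≤ (1 - c ^ 2) * u ^ 2 + (b ^ 2 + c ^ 2 - 2 * b * c * d) * v ^ 2 - 2 * u * v * (c * d - b) := by
    have e : (1 - c ^ 2) * u ^ 2 + (b ^ 2 + c ^ 2 - 2 * b * c * d) * v ^ 2 - 2 * u * v * (c * d - b) =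
        c ^ 2 * 1 + (c * g - u - b * v) * ((c * (c * u + d * v) - c * g) + (c * (c * u + d * v) - (u + b * v))) := by
      linear_combination c ^ 2 * hN
    rw [e]
    linarith
  have h6 : (1 - c ^ 2) * u ^ 2 ≤ u * v * (c * d - b) := by
    have := mul_le_mul_of_nonneg_left h1 hu.le
    linarith
  have h7 : 0 < (b ^ 2 + c ^ 2 - 2 * b * c * d) * v ^ 2 := by
    have h8 := mul_nonneg hu.le h2
    have h9 : 0 < c ^ 2 := by positivity
    linarith
  have h8 : 0 < b ^ 2 + c ^ 2 - 2 * b * c * d := pos_of_mul_pos_left h7 (sq_nonneg v)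
  have h9 : b < c := by
    have h10 : 0 ≤ b * (c * d - b) := mul_nonneg hb.le h3
    have h11 : b ^ 2 < c ^ 2 := by linarith
    exact lt_of_pow_lt_pow_left₀ 2 hc0 h11
  exact ⟨by linarith, h1, by linarith, h9, hg⟩

/-- the roots of the vertex `O` next to `a` and `h` -/
theorem seq89 {S : ℝ → ℝ → Prop} {b e X Y : ℝ} (sy : ∀ X Y, S X Y → S Y X)
    (cl : ∀ X Y, S X Y → S X (2 * b * X - Y)) (po : ∀ X Y, S X Y → 0 < X → Z1 Y) (hS : S X Y)
    (hN : X ^ 2 + Y ^ 2 - 2 * b * X * Y = 1) (hb : b = 1 / 2 ∨ 1 / 2 ≤ b ^ 2) (hb0 : 0 < b)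
    (he : e = 1 / 2 ∨ 1 / 2 ≤ e ^ 2) (he0 : 0 < e) (hX : 0 < X) (hY : 0 < Y) (hc : X * e ≤ 1)
    (hcb : b < X * e) (hcd : b ≤ X * Y * e ^ 2) :
    Y = 2 * b * X ∨ (b ^ 2 = 1 / 2 ∧ e ^ 2 = 1 / 2 ∧ X = 2 * b ∧ Y = 1) ∨
      (e = 1 / 2 ∧ b ^ 2 = 3 / 4 ∧ X = 2 ∧ Y = 2 * b) := by
  have s1 : S X (2 * b * X - Y) := cl _ _ hS
  rcases po _ _ s1 hX with h | h
  · left
    linarith
  right
  have hY1 : 1 ≤ Y := by
    rcases po _ _ hS hX with h' | h'
    · linarith
    · exact h'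
  have s2 : S (2 * b * X - Y) (2 * b * (2 * b * X - Y) - X) := cl _ _ (sy _ _ s1)
  have s3 : S Y (2 * b * Y - X) := cl _ _ (sy _ _ hS)
  have z2 := po _ _ s2 (by linarith)
  have z3 := po _ _ s3 hY
  have e1 : (2 * b * (2 * b * X - Y) - X) * (2 * b * Y - X) = X ^ 2 - (2 * b) ^ 2 := by
    linear_combination (-(4 * b ^ 2)) * hN
  have h1 := mul_nonneg (e0Z1 z2) (e0Z1 z3)
  rw [e1] at h1
  have hXe : 0 < X * e := mul_pos hX he0
  have hXe1 : (X * e) ^ 2 ≤ 1 := pow_le_one₀ hXe.le hc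
  rcases he with he | he
  · -- `e = 1/2`
    right
    subst he
    have hX2 : X ≤ 2 := by linarith
    have hbX : 2 * b < X := by linarith
    have h2 : 0 < (2 * b * (2 * b * X - Y) - X) * (2 * b * Y - X) := by
      rw [e1]
      have := pow_lt_pow_left₀ hbX (by linarith) two_ne_zero
      linarith
    have n2 : 1 ≤ 2 * b * (2 * b * X - Y) - X := by
      rcases z2 with h' | h'
      · rw [h', zero_mul] at h2
        exact absurd h2 (lt_irrefl _)
      · exact h'
    have n3 : 1 ≤ 2 * b * Y - X := by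
      rcases z3 with h' | h'
      · rw [h', mul_zero] at h2
        exact absurd h2 (lt_irrefl _)
      · exact h'
    have s4 := cl _ _ (sy _ _ s2)
    have s5 := cl _ _ (sy _ _ s3)
    have z4 := e0Z1 (po _ _ s4 (by linarith))
    have z5 := e0Z1 (po _ _ s5 (by linarith))
    have e2 : (2 * b * (2 * b * (2 * b * X - Y) - X) - (2 * b * X - Y)) * (2 * b * (2 * b * Y - X) - Y) =
        X ^ 2 - (4 * b ^ 2 - 1) ^ 2 := by
      linear_combination (-((4 * b ^ 2 - 1) ^ 2)) * hN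
    have h3 := mul_nonneg z4 z5
    rw [e2] at h3
    have h4 : 4 * b ^ 2 - 1 ≤ X := by
      by_contra h5
      rw [not_le] at h5
      have := pow_lt_pow_left₀ h5 hX.le two_ne_zero
      linarith
    have h5 : 4 * b ≤ X * Y := by linarith
    have hb2 : 1 / 2 ≤ b := by
      rcases hb with h' | h'
      · rw [h']
      · nlinarith
    have hX1 : 1 < X := by linarith
    have hXX : X ^ 2 ≤ 4 := by nlinarith
    have h6 : b * X ^ 2 ≤ 4 * b := by
      have := mul_le_mul_of_nonneg_left hXX hb0.le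
      linarith
    -- `h (4 b) ≤ 0`
    have h7 : 16 * b ^ 2 - 8 * b ^ 2 * X ^ 2 + X ^ 4 - X ^ 2 ≤ 0 := by
      have h8 : 0 ≤ (X * Y - 4 * b) * ((X * Y - b * X ^ 2) + (4 * b - b * X ^ 2)) :=
        mul_nonneg (by linarith) (by linarith)
      have e3 : (X * Y - 4 * b) * ((X * Y - b * X ^ 2) + (4 * b - b * X ^ 2)) =
          X ^ 2 * 1 - X ^ 4 - (16 * b ^ 2 - 8 * b ^ 2 * X ^ 2) := by
        linear_combination X ^ 2 * hN
      rw [e3] at h8
      linarith
    have h8 : 2 < X ^ 2 := by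
      by_contra h9
      rw [not_lt] at h9
      have h10 : 0 ≤ b ^ 2 * (2 - X ^ 2) := mul_nonneg (sq_nonneg b) (by linarith)
      have h11 : 0 < X ^ 2 * (X ^ 2 - 1) := mul_pos (by positivity) (by nlinarith)
      linarith
    have h9 : 8 * b ^ 2 * (X ^ 2 - 2) ≤ 2 * (X + 1) * (X ^ 2 - 2) :=
      mul_le_mul_of_nonneg_right (by linarith) (by linarith)
    have h10 : (X + 1) * (X ^ 2 * (X - 1)) ≤ (X + 1) * (2 * (X ^ 2 - 2)) := by linarith
    have h11 : X ^ 2 * (X - 1) ≤ 2 * (X ^ 2 - 2) := le_of_mul_le_mul_left h10 (by linarith)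
    have h12 : (X - 2) ^ 2 * (X + 1) ≤ 0 := by
      have e3 : (X - 2) ^ 2 * (X + 1) = X ^ 2 * (X - 1) - 2 * (X ^ 2 - 2) := by ring
      rw [e3]
      linarith
    have h13 : X = 2 := by
      by_contra h14
      have h15 : 0 < (X - 2) ^ 2 := by
        have : X - 2 ≠ 0 := fun h => h14 (by linarith)
        positivity
      have := mul_pos h15 (by linarith : 0 < X + 1)
      linarith
    subst h13
    have h14 : b ^ 2 = 3 / 4 := by linarith
    refine ⟨rfl, h14, rfl, ?_⟩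
    have h15 : (Y - 2 * b) ^ 2 = 0 := by linear_combination hN + 4 * h14
    have := pow_eq_zero_iff two_ne_zero |>.1 h15
    linarith
  · -- `e^2 ≥ 1/2`
    left
    have h2 : X ^ 2 ≤ 2 := by
      have h3 : X ^ 2 * (1 / 2) ≤ X ^ 2 * e ^ 2 := mul_le_mul_of_nonneg_left he (sq_nonneg X)
      rw [mul_pow] at hXe1
      linarith
    rcases hb with hb | hb
    · exfalso
      rw [hb] at h
      have : 2 ≤ X := by linarith
      nlinarith
    · have h3 : b ^ 2 = 1 / 2 := by linarith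
      have h4 : X ^ 2 = 2 := by linarith
      have h5 : X = 2 * b := by
        have h6 : X ^ 2 = (2 * b) ^ 2 := by linarith
        exact (pow_left_inj₀ hX.le (by linarith) two_ne_zero).1 h6
      refine ⟨h3, ?_, h5, ?_⟩
      · rw [mul_pow, h4] at hXe1
        linarith
      · rw [h5] at hN
        have h6 : (Y - 1) ^ 2 = 0 := by
          linear_combination hN + (4 * Y - 4) * h3
        have := pow_eq_zero_iff two_ne_zero |>.1 h6
        linarith

/-- `h` in terms of `a` -/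
theorem adj89 {b q p r w : ℝ} (hN : q ^ 2 + p ^ 2 - 2 * b * q * p = 1) (hD : q * w - p * r = 1)
    (hA : q * r + p * w - b * (q * w + p * r) = b) : w = q ∧ r = 2 * b * q - p := by
  constructor
  · linear_combination (q - b * p) * hD + p * hA - w * hN
  · linear_combination (-(p - b * q)) * hD + q * hA - r * hN

end DY
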