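import Mathlib

/-!
# The final inequality of the case `(m,2,3)` of GAP4 (MP_d13a5e_al)

`s = 2 cos(pi/m)`, `D = sqrt (s^2 - 3)`.  All the quantities `G, A, γ` are linear in the coordinates of the root:
`v = 2 (s^2 - 2) G - γ`, `s g = 2 (s^2 - 1) G - γ`, `u = G - A`.
-/

set_option autoImplicit false

namespace DY

private theorem k1pos89 {s D : ℝ} (h95 : 9 / 5 ≤ s) (hD3 : 489 / 1000 ≤ D) (hD1 : D ≤ 1) :
    0 < -1 - 5 * D ^ 2 - 2 * D ^ 4 + (3 + 2 * D ^ 2) * (s * D) := by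
  have hD : 0 < D := by linarith only [hD3]
  have h1 : (3 + 2 * D ^ 2) * (9 / 5 * D) ≤ (3 + 2 * D ^ 2) * (s * D) := by
    apply mul_le_mul_of_nonneg_left _ (by positivity)
    exact mul_le_mul_of_nonneg_right h95 hD.le
  nlinarith only [h1, mul_nonneg (sub_nonneg.2 hD3) (sub_nonneg.2 hD1), mul_pos hD hD, sq_nonneg (D - 7 / 10),
    mul_nonneg (mul_nonneg (sub_nonneg.2 hD3) (sub_nonneg.2 hD1)) hD.le,
    mul_nonneg (mul_nonneg (sub_nonneg.2 hD3) (sub_nonneg.2 hD1)) (mul_pos hD hD).le]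

private theorem v1pos89 {s D : ℝ} (h95 : 9 / 5 ≤ s) (hD3 : 489 / 1000 ≤ D) (hD1 : D ≤ 1) :
    s < 1 - 4 * D ^ 2 - 2 * D ^ 4 + 2 * (1 + D ^ 2) * (s * D) := by
  have hD : 0 < D := by linarith only [hD3]
  have h0 : 0 ≤ 2 * D + 2 * D ^ 3 - 1 := by nlinarith only [hD3, mul_pos hD hD]
  have h1 : 9 / 5 * (2 * D + 2 * D ^ 3 - 1) ≤ s * (2 * D + 2 * D ^ 3 - 1) :=
    mul_le_mul_of_nonneg_right h95 h0
  nlinarith only [h1, mul_nonneg (sub_nonneg.2 hD3) (sub_nonneg.2 hD1), mul_pos hD hD, sq_nonneg (D - 7 / 10),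
    mul_nonneg (mul_nonneg (sub_nonneg.2 hD3) (sub_nonneg.2 hD1)) hD.le,
    mul_nonneg (mul_nonneg (sub_nonneg.2 hD3) (sub_nonneg.2 hD1)) (mul_pos hD hD).le]

private theorem v2pos89 {s D : ℝ} (h95 : 9 / 5 ≤ s) (hD2 : 6 / 25 ≤ D ^ 2) (hD3 : 489 / 1000 ≤ D) :
    4 * (1 - D ^ 2) < D + 3 * D ^ 3 + s * (1 + D ^ 2) := by
  have hD : 0 < D := by linarith only [hD3]
  have h1 : 9 / 5 * (1 + D ^ 2) ≤ s * (1 + D ^ 2) := mul_le_mul_of_nonneg_right h95 (by positivity)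
  have h2 : 6 / 25 * D ≤ D ^ 3 := by
    have : D ^ 3 = D ^ 2 * D := by ring
    rw [this]
    exact mul_le_mul_of_nonneg_right hD2 hD.le
  linarith only [hD2, hD3, h1, h2]

private theorem v3pos89 {s D : ℝ} (h95 : 9 / 5 ≤ s) (hs2 : s ≤ 2) (hD2 : 6 / 25 ≤ D ^ 2)
    (hD3 : 489 / 1000 ≤ D) : s ≤ 3 * D + D ^ 3 + 3 * s * D ^ 2 := by
  have hD : 0 < D := by linarith only [hD3]
  have h1 : 0 < D ^ 3 := by positivity
  have h2 : s * (6 / 25) ≤ s * D ^ 2 := mul_le_mul_of_nonneg_left hD2 (by linarith only [h95])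
  linarith only [hs2, hD3, h1, h2]

/-- `γ ≥ 1`, `2 A γ ≥ 1`, a linear form with `k ≥ m / 2` -/
private theorem lin89 {k m A γ : ℝ} (hγ : 1 ≤ γ) (hAγ : 1 ≤ 2 * A * γ) (hm : 0 ≤ m) (hk : m / 2 ≤ k) :
    k + m / 2 ≤ k * γ + m * A := by
  have h1 : 1 - γ / 2 ≤ A := by
    by_contra h
    rw [not_le] at h
    nlinarith only [hAγ, mul_lt_mul_of_pos_right h (by linarith only [hγ] : 0 < γ), sq_nonneg (γ - 1)]
  have h2 : m * (1 - γ / 2) ≤ m * A := mul_le_mul_of_nonneg_left h1 hm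
  have h3 := mul_nonneg (sub_nonneg.2 hk) (sub_nonneg.2 hγ)
  nlinarith only [h2, h3]

/-- the case `A ≥ 1` -/
private theorem caseA1_89 {s G A γ K th : ℝ} (hK : 0 < K) (hth : 1 ≤ th)
    (v1 : s < 2 * K + 2 * th - 1) (hG : 2 ≤ G) (hA1 : 1 ≤ A) (hγ : 1 ≤ γ) :
    s < G * K + th * A + γ * (th - 1) := by
  have m1 : 2 * K ≤ G * K := mul_le_mul_of_nonneg_right hG hK.le
  have m2 : th * 1 ≤ th * A := mul_le_mul_of_nonneg_left hA1 (by linarith only [hth])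
  have m3 : 1 * (th - 1) ≤ γ * (th - 1) := mul_le_mul_of_nonneg_right hγ (by linarith only [hth])
  linarith only [v1, m1, m2, m3]

/-- `S > 0` -/
private theorem spos89 {s D G A γ S : ℝ} (hs0 : 0 < s) (hD : 0 < D) (hDD : D ^ 2 ≤ 1) (hs : s ^ 2 = 3 + D ^ 2)
    (hγ : 1 ≤ γ) (hA : 0 < A) (hA1 : A < 1) (hG : A + 1 ≤ G)
    (hN : (1 - D ^ 2) * G ^ 2 - 2 * (1 + D ^ 2) * γ * G + γ ^ 2 = (3 + D ^ 2) * (1 - A ^ 2))
    (hS : s * S = (1 - D ^ 2) * G - (1 + D ^ 2) * γ)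
    (hS2 : S ^ 2 = (1 - D ^ 2) * (1 - A ^ 2) + D ^ 2 * γ ^ 2) (hSA : 0 ≤ S + s * A)
    (hT : 0 ≤ 2 * s * D ^ 2 * G - s * A + S) : 0 < S := by
  by_contra hcon
  rw [not_lt] at hcon
  have hA2 : A ^ 2 < 1 := pow_lt_one₀ hA.le hA1 two_ne_zero
  have hDg : 0 < D * γ := by positivity
  have h1 : D * γ ≤ -S := by
    have h2 : (D * γ) ^ 2 ≤ (-S) ^ 2 := by
      have h3 := mul_nonneg (sub_nonneg.2 hDD) (sub_nonneg.2 hA2.le)
      have h4 : (-S) ^ 2 = S ^ 2 := by ring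
      rw [h4, hS2]
      nlinarith only [h3]
    have h3 := abs_le_of_sq_le_sq h2 (by linarith only [hcon])
    exact (abs_le.1 h3).2
  have k00 : (1 + D ^ 2) ^ 2 - (s * D) ^ 2 = 1 - D ^ 2 := by
    rw [mul_pow, hs]
    ring
  rcases hDD.lt_or_eq with hlt | heq
  · -- `D < 1`
    have h2 : (1 + D ^ 2) ^ 2 * (-S) ≤ s * D ^ 2 * (1 + D ^ 2) * γ := by
      have h3 := mul_nonneg (by linarith only [hlt] : 0 ≤ 1 - D ^ 2) hT
      have h4 := mul_nonneg (by linarith only [hlt] : 0 ≤ 1 - D ^ 2) hSA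
      have e1 : s * D ^ 2 * (s * S) = s * D ^ 2 * ((1 - D ^ 2) * G - (1 + D ^ 2) * γ) := by rw [hS]
      have e2 : s * D ^ 2 * (s * S) = (3 + D ^ 2) * D ^ 2 * S := by
        have : s * D ^ 2 * (s * S) = s ^ 2 * D ^ 2 * S := by ring
        rw [this, hs]
      nlinarith only [h3, h4, e1, e2]
    have h3 : s * D ^ 2 * (1 + D ^ 2) * γ ≤ s * D * (1 + D ^ 2) * (-S) := by
      have h4 := mul_le_mul_of_nonneg_left h1 (by positivity : 0 ≤ s * D * (1 + D ^ 2))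
      nlinarith only [h4]
    have hSn : 0 < -S := by linarith only [hDg, h1]
    have h5 : (1 + D ^ 2) ^ 2 ≤ s * D * (1 + D ^ 2) := by
      refine le_of_mul_le_mul_right (h2.trans h3) hSn
    have h6 : 1 + D ^ 2 ≤ s * D := by
      have h7 : (1 + D ^ 2) * (1 + D ^ 2) ≤ s * D * (1 + D ^ 2) := by
        rw [← sq]
        exact h5
      exact le_of_mul_le_mul_right h7 (by positivity)
    have h7 : (1 + D ^ 2) ^ 2 ≤ (s * D) ^ 2 := by gcongr
    linarith only [k00, hlt, h7]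
  · -- `s = 2`
    have hs4 : s = 2 := by nlinarith only [hs0, hs, heq]
    rw [heq, hs4] at hS
    rw [heq] at hN
    have hS5 : S = -γ := by linarith only [hS]
    rw [hs4, hS5] at hSA
    nlinarith only [hG, hN, hS, hSA, hcon, hA2]

/-- in the variables `G, A, γ` -/
theorem fin89_aux {s D G A γ : ℝ} (hD : 0 < D) (hD1 : D ≤ 1) (hs : s ^ 2 = 3 + D ^ 2) (h95 : 9 / 5 ≤ s)
    (hN : (4 - s ^ 2) * G ^ 2 - 2 * (s ^ 2 - 2) * γ * G + γ ^ 2 = s ^ 2 * (1 - A ^ 2))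
    (hu : 1 ≤ G - A) (hγ : 1 ≤ γ) (hA : 0 < A) (hAγ : 1 ≤ 2 * A * γ)
    (hE : 0 ≤ (4 - s ^ 2) * G - (s ^ 2 - 2) * γ + s ^ 2 * A)
    (hT : 0 ≤ G * (2 * s ^ 4 - 7 * s ^ 2 + 4) - s ^ 2 * A - (s ^ 2 - 2) * γ) :
    s < G * (2 * (s ^ 2 - 1) - (2 * s ^ 2 - 3) * (s * (s - D) / 2)) + s * (s - D) / 2 * A +
      γ * (s * (s - D) / 2 - 1) := by
  have hs0 : 0 < s := by linarith only [h95]
  have hD2 : 6 / 25 ≤ D ^ 2 := by nlinarith only [hs, h95]
  have hD3 : 489 / 1000 ≤ D := by nlinarith only [hD, hs, h95]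
  have hDD : D ^ 2 ≤ 1 := by nlinarith only [hD, hD1]
  have hs2 : s ≤ 2 := by nlinarith
  -- `1 + D^2 - s D >= 0`
  have k00 : (1 + D ^ 2) ^ 2 - (s * D) ^ 2 = 1 - D ^ 2 := by
    rw [mul_pow, hs]
    ring
  have k0 : s * D ≤ 1 + D ^ 2 := by
    have h1 : (s * D) ^ 2 ≤ (1 + D ^ 2) ^ 2 := by linarith only [hDD, k00]
    have h2 := abs_le_of_sq_le_sq h1 (by positivity)
    exact (abs_le.1 h2).2
  have e1 : s * (s - D) / 2 = (3 + D ^ 2 - s * D) / 2 := by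
    have : s * (s - D) = s ^ 2 - s * D := by ring
    rw [this, hs]
  have e2 : 2 * (s ^ 2 - 1) - (2 * s ^ 2 - 3) * (s * (s - D) / 2) =
      (-1 - 5 * D ^ 2 - 2 * D ^ 4 + (3 + 2 * D ^ 2) * (s * D)) / 2 := by
    rw [e1, hs]
    ring
  rw [e2, e1]
  have e4 : s ^ 4 = (3 + D ^ 2) ^ 2 := by
    have : s ^ 4 = (s ^ 2) ^ 2 := by ring
    rw [this, hs]
  rw [hs] at hN hE hT
  rw [e4] at hT
  have k1 := k1pos89 h95 hD3 hD1
  set K := (-1 - 5 * D ^ 2 - 2 * D ^ 4 + (3 + 2 * D ^ 2) * (s * D)) / 2 with hK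
  have hK0 : 0 < K := by linarith only [k1, hK]
  set th := (3 + D ^ 2 - s * D) / 2 with hth
  have hth1 : 1 ≤ th := by linarith only [k0, hth]
  rcases le_or_gt 1 A with hA1 | hA1
  · have v1 := v1pos89 h95 hD3 hD1
    exact caseA1_89 (s := s) hK0 hth1 (by rw [hK, hth]; linarith only [v1]) (by linarith only [hu, hA1]) hA1 hγ
  · -- `A < 1`
    obtain ⟨S, hS⟩ : ∃ S : ℝ, s * S = (1 - D ^ 2) * G - (1 + D ^ 2) * γ :=
      ⟨((1 - D ^ 2) * G - (1 + D ^ 2) * γ) / s, by field_simp⟩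
    have hN' : (1 - D ^ 2) * G ^ 2 - 2 * (1 + D ^ 2) * γ * G + γ ^ 2 = (3 + D ^ 2) * (1 - A ^ 2) := by
      linear_combination hN
    have hS2 : S ^ 2 = (1 - D ^ 2) * (1 - A ^ 2) + D ^ 2 * γ ^ 2 := by
      have h1 : s ^ 2 * S ^ 2 = s ^ 2 * ((1 - D ^ 2) * (1 - A ^ 2) + D ^ 2 * γ ^ 2) := by
        have h2 : s ^ 2 * S ^ 2 = (s * S) ^ 2 := by ring
        rw [h2, hS, hs]
        linear_combination (1 - D ^ 2) * hN'
      exact mul_left_cancel₀ (by positivity) h1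
    have hSA : 0 ≤ S + s * A := by
      have h1 : 0 ≤ s * (S + s * A) := by
        have : s * (S + s * A) = s * S + s ^ 2 * A := by ring
        rw [this, hS, hs]
        linarith only [hE]
      exact nonneg_of_mul_nonneg_right h1 hs0
    have hT' : 0 ≤ 2 * s * D ^ 2 * G - s * A + S := by
      have h1 : 0 ≤ s * (2 * s * D ^ 2 * G - s * A + S) := by
        have : s * (2 * s * D ^ 2 * G - s * A + S) = 2 * s ^ 2 * D ^ 2 * G - s ^ 2 * A + s * S := by ring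
        rw [this, hS, hs]
        linarith only [hT]
      exact nonneg_of_mul_nonneg_right h1 hs0
    have hSpos := spos89 hs0 hD hDD hs hγ hA hA1 (by linarith only [hu]) hN' hS hS2 hSA hT'
    have hA2 : A ^ 2 < 1 := pow_lt_one₀ hA.le hA1 two_ne_zero
    have hSD : D * γ ≤ S := by
      have h2 : (D * γ) ^ 2 ≤ S ^ 2 := by
        have h3 := mul_nonneg (sub_nonneg.2 hDD) (sub_nonneg.2 hA2.le)
        rw [hS2]
        linarith only [h3]
      have h3 := abs_le_of_sq_le_sq h2 hSpos.le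
      exact (abs_le.1 h3).2
    have hlt : D ^ 2 < 1 := by
      rcases hDD.lt_or_eq with h | h
      · exact h
      · exfalso
        rw [h] at hS
        have h1 := mul_pos hs0 hSpos
        linarith
    -- lower bound for `G`
    have hG1 : ((1 + D ^ 2) + s * D) * γ ≤ (1 - D ^ 2) * G := by
      have h1 := mul_le_mul_of_nonneg_left hSD hs0.le
      nlinarith only [hS, h1]
    have v2 := v2pos89 h95 hD2 hD3
    have v3 := v3pos89 h95 hs2 hD2 hD3
    -- `k γ + m A ≥ k + m / 2`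
    have hl := lin89 (k := D * (1 + D ^ 2 + s * D) / 2) (m := (1 - D ^ 2) * ((s - D) / 2)) hγ hAγ
      (by
        have : D ≤ s := by linarith only [hD1, h95]
        exact mul_nonneg (by linarith only [hlt]) (by linarith only [this])) (by linarith only [v3])
    have h1 : K * (((1 + D ^ 2) + s * D) * γ) ≤ K * ((1 - D ^ 2) * G) :=
      mul_le_mul_of_nonneg_left hG1 hK0.le
    -- the identity `K (1 + D^2 + s D) + (1 - D^2) (th - 1) = s D (1 + D^2 + s D) / 2`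
    have h2 : K * (1 + D ^ 2 + s * D) + (1 - D ^ 2) * (th - 1) = s * (D * (1 + D ^ 2 + s * D) / 2) := by
      have h3 : (s * D) * (s * D) = (3 + D ^ 2) * D ^ 2 := by
        have : (s * D) * (s * D) = s ^ 2 * D ^ 2 := by ring
        rw [this, hs]
      rw [hK, hth]
      linear_combination ((3 + 2 * D ^ 2) / 2 - 1 / 2) * h3
    have h3 : (1 - D ^ 2) * th = s * ((1 - D ^ 2) * ((s - D) / 2)) := by
      rw [hth, ← hs]
      ring
    have h6 : s * (1 - D ^ 2) < s * (D * (1 + D ^ 2 + s * D) / 2 +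
        (1 - D ^ 2) * ((s - D) / 2) / 2) := by
      apply mul_lt_mul_of_pos_left _ hs0
      linarith only [v2]
    have h7 := congrArg (fun z => z * γ) h2
    have h8 := congrArg (fun z => z * A) h3
    have h5 := mul_le_mul_of_nonneg_left hl hs0.le
    have h4 : 0 < (1 - D ^ 2) * (G * K + th * A + γ * (th - 1) - s) := by
      have e9 : (1 - D ^ 2) * (G * K + th * A + γ * (th - 1) - s) =
          K * ((1 - D ^ 2) * G) - K * (((1 + D ^ 2) + s * D) * γ) +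
          ((K * (1 + D ^ 2 + s * D) + (1 - D ^ 2) * (th - 1)) * γ) + (1 - D ^ 2) * th * A -
          s * (1 - D ^ 2) := by ring
      rw [e9, h7, h8]
      linarith only [h1, h6, h5]
    have h9 := pos_of_mul_pos_right h4 (by linarith only [hlt])
    linarith only [h9]

/-- **the final inequality** in the coordinates `g, u, v` -/
theorem fin89 {s D g u v : ℝ} (hD : 0 < D) (hs2 : s ≤ 2) (hs : s ^ 2 = 3 + D ^ 2) (h95 : 9 / 5 ≤ s)
    (hN : g ^ 2 + u ^ 2 + v ^ 2 - s * g * (u + v) + u * v = 1) (hu : 1 ≤ u)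
    (hγ : 1 ≤ (s ^ 3 - 2 * s) * g - (s ^ 2 - 1) * v) (hA : 0 < s * g / 2 - u - v / 2)
    (hAγ : 1 ≤ 2 * (s * g / 2 - u - v / 2) * ((s ^ 3 - 2 * s) * g - (s ^ 2 - 1) * v))
    (hE : 0 ≤ (s ^ 3 - 2 * s) * (u / 2 + v - s * g / 2) - (s ^ 2 - 1) * (s * (u + v) / 2 - g))
    (hT : 0 ≤ s * (u + v) / 2 - g) : 1 < g - (s - D) / 2 * (u + v) := by
  have hs0 : 0 < s := by linarith only [h95]
  have hD1 : D ≤ 1 := by nlinarith only [hs2, hs, h95]
  have h1 := fin89_aux (G := s * g / 2 - v / 2) (A := s * g / 2 - u - v / 2)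
    (γ := (s ^ 3 - 2 * s) * g - (s ^ 2 - 1) * v) hD hD1 hs h95
    (by linear_combination s ^ 2 * hN) (by linarith only [hu]) hγ hA hAγ
    (by
      have h2 := mul_nonneg hs0.le hE
      nlinarith only [h2])
    (by
      have h2 := mul_nonneg hs0.le hT
      nlinarith only [h2])
  have h2 : 0 < s * ((g - (s - D) / 2 * (u + v)) - 1) := by
    nlinarith only [h1]
  have h3 := pos_of_mul_pos_right h2 hs0.le
  linarith only [h3]

/-- `m = 5` is impossible -/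
theorem five89 {s g u v : ℝ} (hs0 : 0 < s) (hs : s ^ 2 = s + 1)
    (hN : g ^ 2 + u ^ 2 + v ^ 2 - s * g * (u + v) + u * v = 1) (hu : 1 ≤ u)
    (hγ : 1 ≤ (s ^ 3 - 2 * s) * g - (s ^ 2 - 1) * v) (hA : 0 < s * g / 2 - u - v / 2)
    (hT : 0 ≤ s * (u + v) / 2 - g) : False := by
  have h1 : 1 < s := by nlinarith only [hs0, hs]
  have h2 : s < 7 / 4 := by nlinarith only [hs]
  set A := s * g / 2 - u - v / 2 with hAd
  set γ := (s ^ 3 - 2 * s) * g - (s ^ 2 - 1) * v with hγd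
  set T := s * (u + v) / 2 - g with hTd
  set E := (s ^ 3 - 2 * s) * (u / 2 + v - s * g / 2) - (s ^ 2 - 1) * (s * (u + v) / 2 - g) with hEd
  have key : 4 * A ^ 2 + 4 * E * (E - s * A) = (4 - s ^ 2) + (s ^ 2 - 3) * γ ^ 2 := by
    rw [hAd, hγd, hEd]
    linear_combination (4 - s ^ 2) * hN
  have e1 : E - s * A = T + s * (3 - s ^ 2) * (u + A) := by
    rw [hAd, hEd, hTd]
    ring
  have e2 : s * (3 - s ^ 2) = s - 1 := by
    rw [hs]
    linarith only [hs]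
  rw [e2] at e1
  have h3 : (s - 1) * 1 ≤ (s - 1) * (u + A) := mul_le_mul_of_nonneg_left (by linarith only [hu, hA]) (by linarith only [h1])
  have h4 : s - 1 ≤ E - s * A := by linarith only [hT, e1, h3]
  have h5 : 0 < s * A := mul_pos hs0 hA
  have h6 : s - 1 ≤ E := by linarith only [h4, h5]
  have h7 : (s - 1) * (s - 1) ≤ E * (E - s * A) := mul_le_mul h6 h4 (by linarith only [h1]) (by linarith only [h1, h6])
  have h8 : 1 ≤ γ ^ 2 := one_le_pow₀ hγ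
  have h9 : (s ^ 2 - 3) * γ ^ 2 ≤ (s ^ 2 - 3) * 1 :=
    mul_le_mul_of_nonpos_left h8 (by linarith only [hs, h2])
  have h10 := sq_nonneg A
  have h11 : (s - 1) * (s - 1) = 2 - s := by linear_combination hs
  linarith only [hs, h2, key, h7, h9, h10]

/-- the labels -/
theorem lab89 {s : ℝ} (hs0 : 0 < s) (h2 : 2 < s ^ 2) (z4 : 1 ≤ s ^ 3 - 2 * s)
    (z5 : s ^ 4 - 3 * s ^ 2 + 1 = 0 ∨ 1 ≤ s ^ 4 - 3 * s ^ 2 + 1)
    (z6 : 1 ≤ s ^ 4 - 3 * s ^ 2 + 1 → s ^ 5 - 4 * s ^ 3 + 3 * s = 0 ∨ 1 ≤ s ^ 5 - 4 * s ^ 3 + 3 * s) :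
    s ^ 2 = s + 1 ∨ s ^ 2 = 3 ∨ (9 / 5 ≤ s ∧ 3 < s ^ 2) := by
  rcases z5 with z5 | z5
  · left
    have h3 : (s ^ 2 - s - 1) * (s ^ 2 + s - 1) = 0 := by linear_combination z5
    rcases mul_eq_zero.1 h3 with h4 | h4
    · linarith only [h4]
    · exfalso
      nlinarith only [z4, h4]
  · right
    have h3 : 0 ≤ s ^ 2 * (s ^ 2 - 3) := by linarith only [z5]
    have h4 : 0 ≤ s ^ 2 - 3 := nonneg_of_mul_nonneg_right h3 (by positivity)
    rcases z6 z5 with z6 | z6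
    · left
      have h5 : s * (s ^ 2 - 1) * (s ^ 2 - 3) = 0 := by linear_combination z6
      rcases mul_eq_zero.1 h5 with h6 | h6
      · exfalso
        rcases mul_eq_zero.1 h6 with h7 | h7
        · linarith only [z4, h6, h7]
        · linarith only [h4, h7]
      · linarith only [h6]
    · right
      have h5 : 1 ≤ s * (s ^ 2 - 1) * (s ^ 2 - 3) := by linarith only [z6]
      constructor
      · by_contra h6
        rw [not_le] at h6
        have h7 : s ^ 2 < 81 / 25 := by nlinarith only [z4, h6]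
        have h8 : s * (s ^ 2 - 1) < 9 / 5 * (56 / 25) := by
          apply mul_lt_mul'' h6 (by linarith only [h7]) hs0.le (by linarith only [h4])
        have h9 : s * (s ^ 2 - 1) * (s ^ 2 - 3) ≤ 9 / 5 * (56 / 25) * (6 / 25) := by
          apply mul_le_mul h8.le (by linarith only [h7]) h4 (by norm_num)
        norm_num at h9
        linarith only [h5, h9]
      · rcases h4.lt_or_eq with h6 | h6
        · linarith only [h6]
        · exfalso
          rw [← h6] at h5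
          norm_num at h5

end DY
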