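import Pool.Agent.Helper89.DY.Fan
import Pool.Agent.Helper89.DY.Fin
import Pool.Agent.Helper9.DY.CaseII
import Pool.Agent.Helper70.DY.Im

/-!
# GAP4, the labels `(m, 2, 3)` (MP_d13a5e_al)

`a = d1`, `h = d1 + d2`.
-/

set_option autoImplicit false

namespace DY

open Set

/-! ### Real lemmas -/

section Real

variable {s g u v g' u' v' f1 κ b : ℝ}

/-- relations from two roots through `F` -/
private theorem relA89 (hN : g ^ 2 + u ^ 2 + v ^ 2 - s * g * (u + v) + u * v = 1)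
    (fx : g = κ * v - f1 * u) (fy : g' = κ * v' - f1 * u')
    (hB : 2 * (g * g' + u * u' + v * v') - s * (g * (u' + v') + g' * (u + v)) + (u * v' + v * u') =
      2 * b) :
    (v * u' - u * v') * ((s * g / 2 - u - v / 2) - f1 * (s * (u + v) / 2 - g)) = v' - v * b := by
  subst fx fy
  linear_combination v' * hN - v / 2 * hB

private theorem relH89 (hN : g ^ 2 + u ^ 2 + v ^ 2 - s * g * (u + v) + u * v = 1)
    (fx : g = κ * v - f1 * u) (fy : g' = κ * v' - f1 * u')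
    (hB : 2 * (g * g' + u * u' + v * v') - s * (g * (u' + v') + g' * (u + v)) + (u * v' + v * u') =
      2 * b) :
    (v * u' - u * v') * ((u / 2 + v - s * g / 2) - κ * (s * (u + v) / 2 - g)) = u' - u * b := by
  subst fx fy
  linear_combination u' * hN - u / 2 * hB

/-- `m = 6` -/
private theorem six89 (hs0 : 0 < s) (hs : s ^ 2 = 3)
    (hN : g ^ 2 + u ^ 2 + v ^ 2 - s * g * (u + v) + u * v = 1)
    (hT : 0 ≤ s * (u + v) / 2 - g) (hA : 0 < s * g / 2 - u - v / 2) (hX : 0 < v - u)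
    (hT' : 0 ≤ s * (u' + v') / 2 - g') (hsg' : 0 < u' + v')  (hκ : 2 ≤ κ * s) (hf1 : 0 ≤ f1)
    (fx : g = κ * v - f1 * u) (fy : g' = κ * v' - f1 * u') (hsg : 0 < u + v)
    (hB : 2 * (g * g' + u * u' + v * v') - s * (g * (u' + v') + g' * (u + v)) + (u * v' + v * u') ≤ 0) :
    u' + v' < g * (u' + v') - g' * (u + v) := by
  have hκ0 : 0 < κ := by
    by_contra h
    rw [not_lt] at h
    have := mul_nonpos_of_nonpos_of_nonneg h hs0.le
    linarith
  -- `X^2 + Y^2 = 4`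
  have e1 : (v - u) ^ 2 + (s * (u + v) - 2 * g) ^ 2 = 4 := by
    linear_combination 4 * hN + (u + v) ^ 2 * hs
  have h1 : s * (s * (u + v) - 2 * g) < v - u := by
    have : s * (s * (u + v) - 2 * g) = 3 * (u + v) - 2 * s * g := by
      linear_combination (u + v) * hs
    rw [this]
    linarith
  have hY : 0 ≤ s * (u + v) - 2 * g := by linarith
  have h2 : (s * (s * (u + v) - 2 * g)) ^ 2 ≤ (v - u) ^ 2 := by
    apply pow_le_pow_left₀ _ h1.le
    positivity
  have h2' : (s * (s * (u + v) - 2 * g)) ^ 2 < (v - u) ^ 2 := by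
    apply pow_lt_pow_left₀ h1 (by positivity) two_ne_zero
  have h3 : 3 < (v - u) ^ 2 := by
    have e2 : (s * (s * (u + v) - 2 * g)) ^ 2 = 3 * (s * (u + v) - 2 * g) ^ 2 := by
      rw [mul_pow, hs]
    linarith
  have h4 : s < v - u := by
    refine lt_of_pow_lt_pow_left₀ 2 hX.le ?_
    rw [hs]
    exact h3
  -- `X f > 2`
  have h5 : 2 < (v - u) * (κ + f1) := by
    have h6 : s * κ < (v - u) * κ := mul_lt_mul_of_pos_right h4 hκ0
    have h7 := mul_nonneg hX.le hf1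
    linarith
  -- `X' ≤ 0`
  have e3 : (v - u) * (v' - u') + (s * (u + v) - 2 * g) * (s * (u' + v') - 2 * g') ≤ 0 := by
    have : (v - u) * (v' - u') + (s * (u + v) - 2 * g) * (s * (u' + v') - 2 * g') =
        2 * (2 * (g * g' + u * u' + v * v') - s * (g * (u' + v') + g' * (u + v)) +
          (u * v' + v * u')) := by
      linear_combination (u + v) * (u' + v') * hs
    rw [this]
    linarith
  have hX' : v' - u' ≤ 0 := by
    have h6 := mul_nonneg hY (by linarith : 0 ≤ s * (u' + v') - 2 * g')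
    by_contra h7
    rw [not_le] at h7
    have := mul_pos hX h7
    linarith
  -- the values at `F`
  have e4 : (u + v) * (s + f1 - κ) = (v - u) * (κ + f1) + (s * (u + v) - 2 * g) := by
    rw [fx]
    ring
  have e5 : (u' + v') * (s + f1 - κ) = (v' - u') * (κ + f1) + (s * (u' + v') - 2 * g') := by
    rw [fy]
    ring
  have h8 : (u' + v') * (s + f1 - κ) ≤ s * (u' + v') - 2 * g' := by
    have := mul_nonneg_of_nonpos_of_nonpos hX' (by linarith : -(κ + f1) ≤ 0)
    linarith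
  have h9 := mul_le_mul_of_nonneg_right h8 hsg.le
  have h10 : (u' + v') * 2 < (u' + v') * ((v - u) * (κ + f1)) := mul_lt_mul_of_pos_left h5 hsg'
  have h11 : (u' + v') * ((u + v) * (s + f1 - κ)) =
      (u' + v') * ((v - u) * (κ + f1) + (s * (u + v) - 2 * g)) := by rw [e4]
  linarith

end Real

variable {E : Type*} [AddCommGroup E] [Module ℝ E]
variable {Ψ : Set E} {B : E →ₗ[ℝ] E →ₗ[ℝ] ℝ} {ρ φ : E →ₗ[ℝ] ℝ} {t d1 d2 x x' : E}
variable {g x1 x2 g' x1' x2' : ℝ}

/-- the simple system behind `d1 + d2` -/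
theorem mt89 (hT : Tri Ψ B t d1 d2) (hb2 : B t d2 = 0) (hb0 : B d1 d2 = -(1 / 2)) :
    MT89 Ψ B t d1 (d1 + d2) (-(2 * B t d1)) := by
  have h1 := hT.one t hT.ha
  have h2 := hT.one d1 hT.hb
  have h3 := hT.one d2 hT.hc
  have s1 := hT.symm d2 t
  have s2 := hT.symm d2 d1
  have s3 := hT.symm d1 t
  have k1 : Tri Ψ B (-d2) t (d1 + d2) :=
    (hT.rot89.rot89 : Tri Ψ B d2 t d1).flip89 (x := 0) (y := 1) (by rw [s1, hb2]; norm_num)
      (by rw [s2, hb0]; norm_num) (by module) (by module)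
  have k2 : Tri Ψ B (-(d1 + d2)) d1 (t + (-(2 * B t d1)) • (d1 + d2)) := by
    refine (k1.rot89.rot89 : Tri Ψ B (d1 + d2) (-d2) t).flip89 (x := 1) (y := -(2 * B t d1)) ?_ ?_
      (by module) (by module)
    · simp only [map_add, map_neg, LinearMap.add_apply, h3, hb0]
      norm_num
    · simp only [map_add, LinearMap.add_apply, s1, hb2, s3]
      ring
  refine ⟨k2.swapW.rot89, h1, h2, ?_, ?_, ?_, ?_⟩
  · simp only [map_add, LinearMap.add_apply, h2, h3, s2, hb0]
    norm_num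
  · ring
  · rw [map_add, hb2]
    ring
  · rw [map_add, h2, hb0]
    norm_num

/-- `x'` is not an O-root -/
private theorem g'_89 (X : Xs Ψ B ρ φ t d1 d2 x x' g x1 x2 g' x1' x2')
    (O : OFA Ψ B φ d1 d2 1 0 1 1) : 1 ≤ g' := by
  rcases X.c'.zg with h | h
  · exfalso
    have hmem : x1' • d1 + x2' • d2 ∈ Ψ := by
      have := X.L.xm'
      rw [X.e', h, zero_smul, zero_add] at this
      exact this
    have hn := X.c'.nrm
    have hf := X.c'.fz
    rw [h] at hn hf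
    obtain ⟨k1, k2⟩ := O.uniq x1' x2' ⟨hmem, X.c'.z1, X.c'.z2, by linarith⟩ (by linarith)
    rw [k1, k2] at hf
    have h1 := X.rx'
    rw [h, k1, k2] at h1
    have h2 := X.L.rx'
    have h3 := X.hG
    linarith
  · exact h

/-- `φ d1 > 0` -/
private theorem f1_89 (X : Xs Ψ B ρ φ t d1 d2 x x' g x1 x2 g' x1' x2') (hg' : 1 ≤ g') : 0 < φ d1 := by
  rcases X.h1.lt_or_eq with h | h
  · exact h
  · exfalso
    have L := X.L
    obtain ⟨α, β, e⟩ := L.sp d1 L.tri.hb
    rw [← h, zero_smul, add_zero] at e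
    have e1 : (0 : ℝ) • t + (1 : ℝ) • d1 + (0 : ℝ) • d2 =
        (α * g + β * g') • t + (α * x1 + β * x1') • d1 + (α * x2 + β * x2') • d2 := by
      have : (0 : ℝ) • t + (1 : ℝ) • d1 + (0 : ℝ) • d2 = d1 := by module
      rw [this]
      nth_rewrite 1 [e, X.e, X.e']
      module
    obtain ⟨k1, -, k3⟩ := L.tri.coordW e1
    have p2 := X.p2
    have p2' := X.p2'
    have hg := e0Z1 X.c.zg
    rcases L.cxx d1 L.tri.hb α β e with (⟨h1, h2⟩ | ⟨h1, h2⟩ | ⟨h1, h2⟩) |
      (⟨h1, h2⟩ | ⟨h1, h2⟩ | ⟨h1, h2⟩)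
    · rw [h1, h2] at k1
      linarith
    · rw [h1, h2] at k3
      linarith
    · have := mul_nonneg (by linarith : 0 ≤ α) hg
      have := mul_pos (by linarith : 0 < β) (by linarith : 0 < g')
      linarith
    · have h3 : α = 0 := by linarith
      have h4 : β = -1 := by linarith
      rw [h3, h4] at k1
      linarith
    · have h3 : α = -1 := by linarith
      have h4 : β = 0 := by linarith
      rw [h3, h4] at k3
      linarith
    · have := mul_nonneg (by linarith : 0 ≤ -α) hg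
      have := mul_pos (by linarith : 0 < -β) (by linarith : 0 < g')
      linarith

/-- the facts about the root `x` which are used -/
private theorem facts89 (X : Xs Ψ B ρ φ t d1 d2 x x' g x1 x2 g' x1' x2') {s : ℝ}
    (M : MT89 Ψ B t d1 (d1 + d2) s) (hs0 : 0 < s) (hs2 : 2 < s ^ 2) (hg' : 1 ≤ g') (hf1 : 0 < φ d1)
    (hu : 0 < x1 - x2) (hu' : 0 < x1' - x2') (hT : 0 ≤ s * x1 / 2 - g)
    (hN : g ^ 2 + (x1 - x2) ^ 2 + x2 ^ 2 - s * g * (x1 - x2 + x2) + (x1 - x2) * x2 = 1) :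
    0 < s * g / 2 - (x1 - x2) - x2 / 2 ∧ 1 ≤ x1 - x2 ∧
      1 ≤ (s ^ 3 - 2 * s) * g - (s ^ 2 - 1) * x2 ∧
      1 ≤ 2 * (s * g / 2 - (x1 - x2) - x2 / 2) * ((s ^ 3 - 2 * s) * g - (s ^ 2 - 1) * x2) ∧
      0 ≤ (s ^ 3 - 2 * s) * ((x1 - x2) / 2 + x2 - s * g / 2) - (s ^ 2 - 1) * (s * (x1 - x2 + x2) / 2 - g) ∧
      0 < x2 - (x1 - x2) ∧ s ^ 2 - 1 ≤ (-φ d1 - φ d2) * (s ^ 3 - 2 * s) ∧
      2 * (g * g' + (x1 - x2) * (x1' - x2') + x2 * x2') -
        s * (g * (x1' - x2' + x2') + g' * (x1 - x2 + x2)) + ((x1 - x2) * x2' + x2 * (x1' - x2')) ≤ 0 := by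
  have L := X.L
  have p2 := X.p2
  have p2' := X.p2'
  have hg := e0Z1 X.c.zg
  have ex : x = g • t + (x1 - x2) • d1 + x2 • (d1 + d2) := by
    rw [X.e]
    module
  have ex' : x' = g' • t + (x1' - x2') • d1 + x2' • (d1 + d2) := by
    rw [X.e']
    module
  -- `B x x' ≤ 0`
  have hB : B x x' ≤ 0 := by
    rw [L.tri.symm]
    exact L.cxx.nonpos L.tri.sys L.xm L.xm'
  have hB2 := M.val g (x1 - x2) x2 g' (x1' - x2') x2'
  rw [← ex, ← ex'] at hB2
  have fx : g = (-φ d1 - φ d2) * x2 - φ d1 * (x1 - x2) := by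
    have := X.c.fz
    linarith
  have fy : g' = (-φ d1 - φ d2) * x2' - φ d1 * (x1' - x2') := by
    have := X.c'.fz
    linarith
  set u := x1 - x2 with hud
  set u' := x1' - x2' with hud'
  set f1 := φ d1 with hf1d
  set κ := -f1 - φ d2 with hκd
  have hst := X.st
  have hΔ : 0 < x2 * u' - u * x2' := by
    rw [hud, hud']
    linarith
  have hB3 : 2 * (g * g' + u * u' + x2 * x2') - s * (g * (u' + x2') + g' * (u + x2)) +
      (u * x2' + x2 * u') = 2 * B x x' := by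
    rw [hB2]
    ring
  have rA := relA89 hN fx fy hB3
  have rH := relH89 hN fx fy hB3
  have eux : u + x2 = x1 := by rw [hud]; ring
  rw [eux] at rA rH
  set T := s * x1 / 2 - g with hTd
  set A := s * g / 2 - u - x2 / 2 with hAd
  set H := u / 2 + x2 - s * g / 2 with hHd
  -- `v' > 0`
  have hκ0 : 0 < κ := by
    by_contra h
    rw [not_lt] at h
    have h1 := mul_nonpos_of_nonpos_of_nonneg h (by linarith : 0 ≤ x2)
    have h2 := mul_pos hf1 hu
    linarith
  have hv' : 0 < x2' := by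
    rcases p2'.lt_or_eq with h | h
    · exact h
    · exfalso
      rw [← h, mul_zero, zero_sub] at fy
      have := mul_pos hf1 hu'
      linarith
  have hA : 0 < A := by
    have h1 : 0 < (x2 * u' - u * x2') * (A - f1 * T) := by
      rw [rA]
      have := mul_nonneg (by linarith : 0 ≤ x2) (by linarith : 0 ≤ -B x x')
      linarith
    have h2 := pos_of_mul_pos_right h1 hΔ.le
    have h3 := mul_nonneg hf1.le hT
    linarith
  have hH : κ * T < H := by
    have h1 : 0 < (x2 * u' - u * x2') * (H - κ * T) := by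
      rw [rH]
      have := mul_nonneg hu.le (by linarith : 0 ≤ -B x x')
      linarith
    have h2 := pos_of_mul_pos_right h1 hΔ.le
    linarith
  have hH0 : 0 < H := by
    have := mul_nonneg hκ0.le hT
    linarith
  have hs4 : 0 < s ^ 3 - 2 * s := by
    have : s ^ 3 - 2 * s = s * (s ^ 2 - 2) := by ring
    rw [this]
    exact mul_pos hs0 (by linarith)
  -- chambers
  have hxm : g • t + u • d1 + x2 • (d1 + d2) ∈ Ψ := by
    rw [← ex]
    exact L.xm
  have hxm' : g' • t + u' • d1 + x2' • (d1 + d2) ∈ Ψ := by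
    rw [← ex']
    exact L.xm'
  have zx : Z1 ((s ^ 4 - 3 * s ^ 2 + 1) * g - (s ^ 3 - 2 * s) * x2 + s * u) ∧
      Z1 ((s ^ 3 - 2 * s) * g - (s ^ 2 - 1) * x2 + u) ∧ Z1 u := by
    rcases M.z4 hxm with h | ⟨-, -, h⟩
    · exact h
    · exfalso
      have := e0Z1 h
      linarith
  have zy : Z1 ((s ^ 4 - 3 * s ^ 2 + 1) * g' - (s ^ 3 - 2 * s) * x2' + s * u') ∧
      Z1 ((s ^ 3 - 2 * s) * g' - (s ^ 2 - 1) * x2' + u') ∧ Z1 u' := by
    rcases M.z4 hxm' with h | ⟨-, -, h⟩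
    · exact h
    · exfalso
      have := e0Z1 h
      linarith
  -- the case of `n`
  have isn : ∀ {g u v : ℝ}, Z1 ((s ^ 4 - 3 * s ^ 2 + 1) * g - (s ^ 3 - 2 * s) * v + s * u) →
      Z1 (-((s ^ 4 - 3 * s ^ 2 + 1) * g - (s ^ 3 - 2 * s) * v + s * u)) →
      Z1 ((s ^ 3 - 2 * s) * g - (s ^ 2 - 1) * v + u) →
      Z1 (-((s ^ 3 - 2 * s) * g - (s ^ 2 - 1) * v + u)) → g = s * u ∧ v = (s ^ 2 - 1) * u := by
    intro g u v h1 h2 h3 h4
    have k1 : (s ^ 4 - 3 * s ^ 2 + 1) * g - (s ^ 3 - 2 * s) * v + s * u = 0 := by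
      have := e0Z1 h1
      have := e0Z1 h2
      linarith
    have k2 : (s ^ 3 - 2 * s) * g - (s ^ 2 - 1) * v + u = 0 := by
      have := e0Z1 h3
      have := e0Z1 h4
      linarith
    constructor
    · linear_combination (s ^ 3 - 2 * s) * k2 - (s ^ 2 - 1) * k1
    · linear_combination (s ^ 4 - 3 * s ^ 2 + 1) * k2 - (s ^ 3 - 2 * s) * k1
  have hu1 : 1 ≤ u := by
    rcases zx.2.2 with h | h
    · linarith
    · exact h
  set γ := (s ^ 3 - 2 * s) * g - (s ^ 2 - 1) * x2 with hγd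
  have hγ0 : Z1 γ := by
    rcases M.z4' hxm with ⟨h, -⟩ | ⟨-, h2, h3⟩
    · exact h
    · exfalso
      obtain ⟨k1, k2⟩ := isn zx.1 h2 zx.2.1 h3
      rw [k1, k2] at hAd
      have : A = -(u / 2) := by
        rw [hAd]
        ring
      linarith
  have hγ1 : 1 ≤ γ := by
    rcases hγ0 with h0 | h0
    · exfalso
      -- `γ' < 0`
      have e1 : x2 * ((s ^ 3 - 2 * s) * g' - (s ^ 2 - 1) * x2') - x2' * γ =
          -((s ^ 3 - 2 * s) * (f1 * (x2 * u' - u * x2'))) := by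
        rw [hγd, fx, fy]
        ring
      have e2 : 0 < (s ^ 3 - 2 * s) * (f1 * (x2 * u' - u * x2')) := mul_pos hs4 (mul_pos hf1 hΔ)
      rw [h0, mul_zero, sub_zero] at e1
      have e3 : (s ^ 3 - 2 * s) * g' - (s ^ 2 - 1) * x2' < 0 := by
        by_contra h
        rw [not_lt] at h
        have := mul_nonneg (by linarith : 0 ≤ x2) h
        linarith
      rcases M.z4' hxm' with ⟨h, -⟩ | ⟨-, h2, h3⟩
      · have := e0Z1 h
        linarith
      · obtain ⟨k1, k2⟩ := isn zy.1 h2 zy.2.1 h3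
        rw [k1, k2] at hB3
        have e4 : 2 * B x x' = u' * (u - γ) := by
          rw [← hB3, hγd]
          ring
        rw [h0, sub_zero] at e4
        have := mul_pos hu' hu
        linarith
    · exact h0
  -- `κ ≥ s_3 / s_4`
  have hκ3 : s ^ 2 - 1 ≤ κ * (s ^ 3 - 2 * s) := by
    have h1 : (s ^ 2 - 1) * x2 ≤ κ * (s ^ 3 - 2 * s) * x2 := by
      have h2 : g ≤ κ * x2 := by
        have := mul_pos hf1 hu
        linarith
      have h3 := mul_le_mul_of_nonneg_left h2 hs4.le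
      linarith
    exact le_of_mul_le_mul_right h1 (by linarith)
  refine ⟨hA, hu1, hγ1, ?_, ?_, ?_, hκ3, by linarith⟩
  · -- the root `r_x a`
    have h1 := L.tri.refl x L.xm d1 L.tri.hb
    have h2 : 2 * B x d1 = -(2 * A) := by
      have h3 := M.val g u x2 0 1 0
      have e1 : (0 : ℝ) • t + (1 : ℝ) • d1 + (0 : ℝ) • (d1 + d2) = d1 := by module
      rw [← ex, e1] at h3
      rw [h3, hAd]
      ring
    have h3 : rf B x d1 = (2 * A * g) • t + (1 + 2 * A * u) • d1 + (2 * A * x2) • (d1 + d2) := by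
      unfold rf
      rw [h2]
      nth_rewrite 1 [ex]
      module
    rw [h3] at h1
    have h4 : (s ^ 3 - 2 * s) * (2 * A * g) - (s ^ 2 - 1) * (2 * A * x2) = 2 * A * γ := by
      rw [hγd]
      ring
    have h5 : 0 < 2 * A * γ := by positivity
    rcases M.z4' h1 with ⟨h, -⟩ | ⟨h, -⟩
    · rw [h4] at h
      rcases h with h | h
      · linarith
      · exact h
    · rw [h4] at h
      have := e0Z1 h
      linarith
  · rw [eux]
    have h1 : (s ^ 2 - 1) * T ≤ κ * (s ^ 3 - 2 * s) * T := mul_le_mul_of_nonneg_right hκ3 hT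
    have h2 : (s ^ 3 - 2 * s) * (κ * T) ≤ (s ^ 3 - 2 * s) * H := mul_le_mul_of_nonneg_left hH.le hs4.le
    have e : κ * (s ^ 3 - 2 * s) * T = (s ^ 3 - 2 * s) * (κ * T) := by ring
    rw [e] at h1
    exact sub_nonneg.2 (h1.trans h2)
  · have : x2 - u = 2 * (A + H) := by
      rw [hAd, hHd]
      ring
    rw [this]
    linarith

/-- **GAP4, labels `(m, 2, 3)`** -/
theorem m23_89 (X : Xs Ψ B ρ φ t d1 d2 x x' g x1 x2 g' x1' x2') (O : OFA Ψ B φ d1 d2 1 0 1 1)
    (hb2 : B t d2 = 0) (hb0 : B d1 d2 = -(1 / 2)) (hc1 : -B t d1 ≤ 1) (hc2 : 1 / 2 < (B t d1) ^ 2)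
    (hu : 0 < x1 - x2) (hu' : 0 < x1' - x2') : False := by
  have L := X.L
  obtain ⟨s, hs⟩ : ∃ s, s = -(2 * B t d1) := ⟨_, rfl⟩
  have M : MT89 Ψ B t d1 (d1 + d2) s := by
    rw [hs]
    exact mt89 L.tri hb2 hb0
  have eb : -B t d1 = s / 2 := by rw [hs]; ring
  have hC : CP Ψ B t d1 (s / 2) := by
    rw [← eb]
    exact L.tri.cp
  have hs2 : 2 < s ^ 2 := by
    have : s ^ 2 = 4 * (B t d1) ^ 2 := by rw [hs]; ring
    linarith
  have hs0 : 0 < s := by
    have h1 := hC.b_nonneg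
    rcases h1.lt_or_eq with h | h
    · linarith
    · have : s = 0 := by linarith
      rw [this] at hs2
      norm_num at hs2
  have hg' := g'_89 X O
  have hf1 := f1_89 X hg'
  have o := X.c.obt
  have o' := X.c'.obt
  rw [eb, hb2] at o o'
  have hT : 0 ≤ s * x1 / 2 - g := by linarith
  have hT' : 0 ≤ s * x1' / 2 - g' := by linarith
  have hN : g ^ 2 + (x1 - x2) ^ 2 + x2 ^ 2 - s * g * (x1 - x2 + x2) + (x1 - x2) * x2 = 1 := by
    have h1 := X.c.nrm
    rw [eb, hb2, hb0] at h1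
    linear_combination h1
  obtain ⟨fA, fu, fγ, fAγ, fE, fX, fκ, fB⟩ := facts89 X M hs0 hs2 hg' hf1 hu hu' hT hN
  have q2 : sq (s / 2) 2 = s := by
    rw [sq_two]
    ring
  have q3 : sq (s / 2) 3 = s ^ 2 - 1 := by
    rw [sq_succ, q2, sq_one]
    ring
  have q4 : sq (s / 2) 4 = s ^ 3 - 2 * s := by
    rw [sq_succ, q3, q2]
    ring
  have q5 : sq (s / 2) 5 = s ^ 4 - 3 * s ^ 2 + 1 := by
    rw [sq_succ, q4, q3]
    ring
  have q6 : sq (s / 2) 6 = s ^ 5 - 4 * s ^ 3 + 3 * s := by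
    rw [sq_succ, q5, q4]
    ring
  have hs4 : 0 < s ^ 3 - 2 * s := by
    have : s ^ 3 - 2 * s = s * (s ^ 2 - 2) := by ring
    rw [this]
    exact mul_pos hs0 (by linarith)
  have z4 : 1 ≤ s ^ 3 - 2 * s := by
    rw [← q4]
    exact hC.sq_one_le (by rw [q4]; exact hs4)
  have z5 : s ^ 4 - 3 * s ^ 2 + 1 = 0 ∨ 1 ≤ s ^ 4 - 3 * s ^ 2 + 1 := by
    rw [← q5]
    exact hC.sq_next (by rw [q4]; exact hs4)
  have z6 : 1 ≤ s ^ 4 - 3 * s ^ 2 + 1 →
      s ^ 5 - 4 * s ^ 3 + 3 * s = 0 ∨ 1 ≤ s ^ 5 - 4 * s ^ 3 + 3 * s := by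
    intro h
    rw [← q6]
    exact hC.sq_next (by rw [q5]; linarith)
  have hr1 : -(s / 2) ≤ ρ d1 := by
    have := L.lbl.f1
    rw [eb] at this
    exact this
  have hr2 : 0 ≤ ρ d2 := by
    have := L.lbl.f2
    rw [hb2] at this
    linarith
  have p1 := X.p1
  have p1' := X.p1'
  have hrx : ρ x ≤ 1 := by
    have h1 := L.sum
    have h2 := L.rx'
    linarith
  rcases lab89 hs0 hs2 z4 z5 z6 with h5 | h6 | ⟨h95, h3⟩
  · -- `m = 5`
    exact five89 hs0 h5 hN fu fγ fA (by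
      have e : s * (x1 - x2 + x2) / 2 - g = s * x1 / 2 - g := by ring
      rw [e]
      exact hT)
  · -- `m = 6`
    have hκ : 2 ≤ (-φ d1 - φ d2) * s := by
      have e : (-φ d1 - φ d2) * (s ^ 3 - 2 * s) = (-φ d1 - φ d2) * s := by
        linear_combination (-φ d1 - φ d2) * s * h6
      rw [e] at fκ
      linarith
    have k := six89 (u := x1 - x2) (v := x2) (u' := x1' - x2') (v' := x2') (f1 := φ d1)
      (κ := -φ d1 - φ d2) hs0 h6 hN (by
        have e : s * (x1 - x2 + x2) / 2 - g = s * x1 / 2 - g := by ring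
        rw [e]
        exact hT) fA fX (by
        have e : s * (x1' - x2' + x2') / 2 - g' = s * x1' / 2 - g' := by ring
        rw [e]
        exact hT') (by linarith) hκ hf1.le (by linarith [X.c.fz]) (by linarith [X.c'.fz])
      (by linarith) fB
    have e1 : x1' * ρ x - x1 * ρ x' = g * x1' - g' * x1 + ρ d2 * (x2 * x1' - x1 * x2') := by
      rw [X.rx, X.rx']
      ring
    have h1 := mul_nonneg hr2 (by linarith [X.st] : 0 ≤ x2 * x1' - x1 * x2')
    have h2 := mul_nonneg (by linarith : 0 ≤ x1) L.rx'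
    have h3 : x1' * ρ x ≤ x1' * 1 := mul_le_mul_of_nonneg_left hrx (by linarith)
    have e2 : g * (x1' - x2' + x2') - g' * (x1 - x2 + x2) = g * x1' - g' * x1 := by ring
    rw [e2] at k
    linarith
  · -- `m ≥ 7`
    have hD0 : 0 ≤ s ^ 2 - 3 := by linarith
    obtain ⟨D, hDd⟩ : ∃ D, D = √(s ^ 2 - 3) := ⟨_, rfl⟩
    have hD2 : D ^ 2 = s ^ 2 - 3 := by
      rw [hDd]
      exact Real.sq_sqrt hD0
    have hD : 0 < D := by
      rw [hDd]
      exact Real.sqrt_pos.2 (by linarith)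
    have k := fin89 (u := x1 - x2) (v := x2) hD (by linarith) (by linarith) h95 hN fu fγ fA fAγ fE (by
      have e : s * (x1 - x2 + x2) / 2 - g = s * x1 / 2 - g := by ring
      rw [e]
      exact hT)
    have hq := L.adm.conic L.tri (by linarith) (by rw [hb2]; norm_num) (by rw [hb0]; norm_num)
    have e0 : B t d1 = -(s / 2) := by linarith
    have hq2 : 4 * dq B ρ t d1 d2 = (2 * ρ d1 + ρ d2 + s) ^ 2 - D ^ 2 * (1 + ρ d2 ^ 2) := by
      unfold dq
      rw [L.rt, hb2, hb0, e0, hD2]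
      ring
    have hy0 : 0 ≤ 2 * ρ d1 + ρ d2 + s := by linarith
    have hy : D ≤ 2 * ρ d1 + ρ d2 + s := by
      refine le_of_sq_le_sq ?_ hy0
      have := mul_nonneg (sq_nonneg D) (sq_nonneg (ρ d2))
      linarith
    have e1 : ρ x = g + x1 / 2 * (2 * ρ d1 + ρ d2) + (x2 - (x1 - x2)) / 2 * ρ d2 := by
      rw [X.rx]
      ring
    have h1 : x1 / 2 * (D - s) ≤ x1 / 2 * (2 * ρ d1 + ρ d2) :=
      mul_le_mul_of_nonneg_left (by linarith) (by linarith)
    have h2 : 0 ≤ (x2 - (x1 - x2)) / 2 * ρ d2 := mul_nonneg (by linarith) hr2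
    have e2 : g - (s - D) / 2 * (x1 - x2 + x2) = g + x1 / 2 * (D - s) := by ring
    rw [e2] at k
    linarith

end DY
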