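import Pool.Agent.Helper89.DY.Mir3
import Pool.Agent.Helper29.DY.Gt

/-!
# Family (A) of GAP1 (MP_d13a5e_al)
-/

set_option autoImplicit false

namespace DY

variable {E : Type*} [AddCommGroup E] [Module ℝ E]
variable {Ψ : Set E} {B : E →ₗ[ℝ] E →ₗ[ℝ] ℝ} {ρ φ : E →ₗ[ℝ] ℝ} {t d1 d2 x x' : E}
variable {g x1 x2 g' x1' x2' : ℝ}

/-- **`b1 = 0`, `h = d2`, for the chamber data without the strip of `d1`** -/
theorem g1m (Ψ : Set E) (B : E →ₗ[ℝ] E →ₗ[ℝ] ℝ) : G1M Ψ B := by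
  refine g1m_all ?_
  intro b bO R κ f q1 r g x1 x2 g' x1' x2' k τ e C hP
  exact St29.g1r4 b bO R κ f q1 r g x1 x2 g' x1' x2' k τ e C (by linarith)

/-- **family (A)**: `b2 = 0`, `h = d1 + 2 bO d2 = r_2 d1` -/
theorem gap1_A {al1 al2 be2 : ℝ} (X : Xs Ψ B ρ φ t d1 d2 x x' g x1 x2 g' x1' x2')
    (O : OFA Ψ B φ d1 d2 al1 al2 1 be2) (hbe : be2 = 2 * -B d1 d2) (hb : B t d2 = 0)
    (h0 : 1 / 2 ≤ -B d1 d2) (h4 : 1 < al1 * -B t d1 + al2 * -B t d2) (u0 : 0 < x1 * be2 - x2 * 1)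
    (u0' : 0 < x1' * be2 - x2' * 1) (v0 : 0 < al1 * x2 - al2 * x1)
    (v0' : 0 ≤ al1 * x2' - al2 * x1') : False := by
  subst hbe
  exact gap1_A_of (g1m Ψ B) X O hb h0 h4 u0 u0' v0 v0'

/-- family (A) as a part of `GAPStat` -/
theorem gap1_A_stat (Ψ : Set E) (B : E →ₗ[ℝ] E →ₗ[ℝ] ℝ) :
    GAPStat Ψ B fun t d1 d2 al1 al2 be1 be2 => 1 / 2 ≤ -B d1 d2 ∧
      1 < al1 * -B t d1 + al2 * -B t d2 ∧ B t d2 = 0 ∧ be1 = 1 ∧ be2 = 2 * -B d1 d2 := by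
  rintro ρ φ t d1 d2 x x' g x1 x2 g' x1' x2' al1 al2 be1 be2 X O ⟨h0, h4, hb, rfl, hbe⟩ u0 u0' v0 v0'
  exact gap1_A X O hbe hb h0 h4 u0 u0' v0 v0'

end DY
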